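import Pool.Agent.helper47.VD.SpecA1

/-! Row vd:AEID (the identity of Fourier transforms) of project VD. -/

set_option autoImplicit false

open scoped ContDiff Topology InnerProductSpace ComplexConjugate ENNReal
open MeasureTheory Filter Set

namespace Pool.Agent.VD

open Pool.Agent.VQ (CH)

noncomputable section

/-- continuous with compact support -/
def AEID_CC {d : ℕ} (g : V d → ℂ) : Prop := Continuous g ∧ HasCompactSupport g

theorem AEID_E {d : ℕ} (R : ℝ) (ξ : V d) : ContDiff ℝ ∞ (fun w : V d => Complex.exp (-(((R * ⟪ξ, w⟫_ℝ : ℝ) : ℂ) * Complex.I))) := by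
  have h1 : ContDiff ℝ ∞ (fun w : V d => (R * ⟪ξ, w⟫_ℝ : ℝ)) := contDiff_const.mul (contDiff_const.inner ℝ contDiff_id)
  have h2 : ContDiff ℝ ∞ (fun w : V d => ((R * ⟪ξ, w⟫_ℝ : ℝ) : ℂ)) := Complex.ofRealCLM.contDiff.comp h1
  exact Complex.contDiff_exp.comp ((h2.mul contDiff_const).neg)

theorem AEID_int {d : ℕ} (R : ℝ) (ξ : V d) {g : V d → ℂ} (hg : AEID_CC g) :
    Integrable (fun w : V d => g w * Complex.exp (-(((R * ⟪ξ, w⟫_ℝ : ℝ) : ℂ) * Complex.I))) :=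
  (hg.1.mul (AEID_E R ξ).continuous).integrable_of_hasCompactSupport hg.2.mul_right

theorem AEID_smul {d : ℕ} (R : ℝ) (ξ : V d) (c : ℂ) (g : V d → ℂ) : FTR R (fun w => c * g w) ξ = c * FTR R g ξ := by
  unfold FTR
  rw [← integral_const_mul]
  simp only [mul_assoc]

theorem AEID_add {d : ℕ} (R : ℝ) (ξ : V d) {g1 g2 : V d → ℂ} (h1 : AEID_CC g1) (h2 : AEID_CC g2) :
    FTR R (fun w => g1 w + g2 w) ξ = FTR R g1 ξ + FTR R g2 ξ := by
  unfold FTR
  rw [← integral_add (AEID_int R ξ h1) (AEID_int R ξ h2)]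
  simp only [add_mul]

theorem AEID_csmul {d : ℕ} (c : ℂ) {g : V d → ℂ} (h : AEID_CC g) : AEID_CC (fun w => c * g w) :=
  ⟨continuous_const.mul h.1, h.2.mul_left⟩

theorem AEID_cadd {d : ℕ} {g1 g2 : V d → ℂ} (h1 : AEID_CC g1) (h2 : AEID_CC g2) : AEID_CC (fun w => g1 w + g2 w) :=
  ⟨h1.1.add h2.1, h1.2.add h2.2⟩

theorem AEID_sum {d : ℕ} {ι : Type} [Fintype ι] (R : ℝ) (ξ : V d) {g : ι → V d → ℂ} (h : ∀ i, AEID_CC (g i)) :
    FTR R (fun w => ∑ i, g i w) ξ = ∑ i, FTR R (g i) ξ := by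
  unfold FTR
  rw [← integral_finsetSum _ (fun i _ => AEID_int R ξ (h i))]
  simp only [Finset.sum_mul]

theorem AEID_cc {d : ℕ} {u : V d → ℂ} {b k : V d → ℝ} (hu : Continuous u) (hb : HasCompactSupport b) (hk : Continuous k)
    (h0 : ∀ w, w ∉ tsupport b → k w = 0) : AEID_CC (fun w => u w * ((k w : ℝ) : ℂ)) :=
  ⟨hu.mul (Complex.continuous_ofReal.comp hk), HasCompactSupport.intro hb (fun w hw => by rw [h0 w hw]; simp)⟩

theorem AEID_exp {d : ℕ} (ξ : V d) : ξ = ∑ i : Fin d, ξ i • (EuclideanSpace.single i (1 : ℝ) : V d) := by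
  have h := (EuclideanSpace.basisFun (Fin d) ℝ).sum_repr ξ
  simp only [EuclideanSpace.basisFun_repr, EuclideanSpace.basisFun_apply] at h
  exact h.symm

theorem AEID_lin {d : ℕ} (T : V d →L[ℝ] ℝ) (ξ : V d) : T ξ = ∑ i : Fin d, ξ i * T (EuclideanSpace.single i 1) := by
  have h := congrArg T (AEID_exp ξ)
  rw [map_sum] at h
  rw [h]
  refine Finset.sum_congr rfl fun i _ => ?_
  rw [map_smul, smul_eq_mul]

theorem AEID_inner {d : ℕ} (v ξ : V d) : ⟪ξ, v⟫_ℝ = ∑ i : Fin d, ξ i * ⟪(EuclideanSpace.single i 1 : V d), v⟫_ℝ := by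
  have h := AEID_lin (innerSL ℝ v) ξ
  simp only [innerSL_apply_apply] at h
  rw [real_inner_comm, h]
  refine Finset.sum_congr rfl fun i _ => ?_
  rw [real_inner_comm]

theorem AEID_dvh {d : ℕ} (h : V d → V d →L[ℝ] V d) (ξ x : V d) :
    dvh h ξ x = ∑ i : Fin d, ξ i * dvh h (EuclideanSpace.single i 1) x := by
  unfold dvh
  simp only [Finset.mul_sum]
  rw [Finset.sum_comm]
  exact Finset.sum_congr rfl fun i _ => AEID_inner _ _

theorem AEID_quad {d : ℕ} (T : V d →L[ℝ] V d) (ξ : V d) : ⟪T ξ, ξ⟫_ℝ =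
    ∑ i : Fin d, ∑ j : Fin d, ξ i * ξ j * ⟪T (EuclideanSpace.single i 1), (EuclideanSpace.single j 1 : V d)⟫_ℝ := by
  have h1 := AEID_lin ((innerSL ℝ ξ).comp T) ξ
  simp only [ContinuousLinearMap.comp_apply, innerSL_apply_apply] at h1
  rw [real_inner_comm, h1]
  refine Finset.sum_congr rfl fun i _ => ?_
  rw [AEID_inner, Finset.mul_sum]
  refine Finset.sum_congr rfl fun j _ => ?_
  rw [real_inner_comm, mul_assoc]

theorem AEID_zero {d : ℕ} {b : V d → ℝ} {w : V d} (hw : w ∉ tsupport b) : b w = 0 ∧ fderiv ℝ b w = 0 := by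
  refine ⟨image_eq_zero_of_notMem_tsupport hw, ?_⟩
  by_contra h
  exact hw (support_fderiv_subset ℝ h)

theorem AEID_LH0 {d : ℕ} (h : V d → V d →L[ℝ] V d) {b : V d → ℝ} {w : V d} (hw : w ∉ tsupport b) : LHO h b w = 0 := by
  unfold LHO
  refine Finset.sum_eq_zero fun i _ => ?_
  have h1 : (fun y => fderiv ℝ b y (h y (EuclideanSpace.single i 1))) =ᶠ[𝓝 w] fun _ => (0 : ℝ) := by
    have h2 : (tsupport b)ᶜ ∈ 𝓝 w := (isClosed_tsupport b).isOpen_compl.mem_nhds hw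
    filter_upwards [h2] with y hy
    rw [(AEID_zero hy).2]
    rfl
  rw [h1.fderiv_eq]
  simp

theorem AEID_LHc {d : ℕ} {h : V d → V d →L[ℝ] V d} {b : V d → ℝ} (hh : ContDiff ℝ ∞ h) (hb : ContDiff ℝ 2 b) : Continuous (LHO h b) := by
  unfold LHO
  refine continuous_finset_sum _ fun i _ => ?_
  have h1 : ContDiff ℝ 1 (fderiv ℝ b) := hb.fderiv_right (by norm_num)
  have h2 : ContDiff ℝ 1 h := hh.of_le (by exact_mod_cast le_top)
  have h3 : ContDiff ℝ 1 (fun y => fderiv ℝ b y (h y (EuclideanSpace.single i 1))) := h1.clm_apply (h2.clm_apply contDiff_const)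
  have h4 := h3.continuous_fderiv (by norm_num)
  exact h4.clm_apply continuous_const

theorem AEID_dvhc {d : ℕ} {h : V d → V d →L[ℝ] V d} (hh : ContDiff ℝ ∞ h) (ξ : V d) : Continuous (dvh h ξ) := by
  unfold dvh
  refine continuous_finset_sum _ fun i _ => ?_
  have h1 := hh.continuous_fderiv (by simp)
  exact continuous_const.inner ((h1.clm_apply continuous_const).clm_apply continuous_const)

theorem AEID_proof (h1 : AGRW_stmt) (h2 : AEXL_stmt) : AEID_stmt := by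
  intro d h h0 u b R ξ hh hsym hu hb hbs
  have hhc := hh.continuous
  have huc := hu.continuous
  have hbc := hb.continuous
  have hdb : Continuous (fderiv ℝ b) := hb.continuous_fderiv (by norm_num)
  -- the functions
  set k1 : V d → V d → ℝ := fun η w => 2 * fderiv ℝ b w (h w η) + b w * dvh h η w with hk1
  have hk1c : ∀ η, Continuous (k1 η) := fun η =>
    (continuous_const.mul (hdb.clm_apply (hhc.clm_apply continuous_const))).add (hbc.mul (AEID_dvhc hh η))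
  have hk10 : ∀ η w, w ∉ tsupport b → k1 η w = 0 := by
    intro η w hw
    simp only [hk1, (AEID_zero hw).1, (AEID_zero hw).2]
    simp
  have c0 : AEID_CC (fun w => u w * ((b w : ℝ) : ℂ)) := AEID_cc huc hbs hbc (fun w hw => (AEID_zero hw).1)
  have c1 : AEID_CC (fun w => u w * ((LHO h b w : ℝ) : ℂ)) := AEID_cc huc hbs (AEID_LHc hh hb) (fun w hw => AEID_LH0 h hw)
  have c2 : ∀ η, AEID_CC (fun w => u w * ((k1 η w : ℝ) : ℂ)) := fun η => AEID_cc huc hbs (hk1c η) (hk10 η)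
  have c3 : AEID_CC (fun w => u w * ((b w * ⟪h w ξ, ξ⟫_ℝ : ℝ) : ℂ)) := AEID_cc huc hbs
    (hbc.mul ((hhc.clm_apply continuous_const).inner continuous_const)) (fun w hw => by rw [(AEID_zero hw).1, zero_mul])
  have c4 : ∀ i j : Fin d, AEID_CC (fun w => u w * ((b w * ⟪(h0 - h w) (EuclideanSpace.single i 1), (EuclideanSpace.single j 1 : V d)⟫_ℝ : ℝ) : ℂ)) :=
    fun i j => AEID_cc huc hbs (hbc.mul (((continuous_const.sub hhc).clm_apply continuous_const).inner continuous_const))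
      (fun w hw => by rw [(AEID_zero hw).1, zero_mul])
  -- Green's formula
  have hf : ContDiff ℝ 2 (fun w : V d => ((b w : ℝ) : ℂ) * Complex.exp (-(((R * ⟪ξ, w⟫_ℝ : ℝ) : ℂ) * Complex.I))) :=
    (Complex.ofRealCLM.contDiff.comp hb).mul ((AEID_E R ξ).of_le (by norm_cast))
  have hfs : HasCompactSupport (fun w : V d => ((b w : ℝ) : ℂ) * Complex.exp (-(((R * ⟪ξ, w⟫_ℝ : ℝ) : ℂ) * Complex.I))) :=
    HasCompactSupport.intro hbs (fun w hw => by rw [(AEID_zero hw).1]; simp)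
  have hG := h1 d h u _ hh hsym hu hf hfs
  have hA : FTR R (fun w => LHO h u w * ((b w : ℝ) : ℂ)) ξ = FTR R (fun w => u w * ((LHO h b w : ℝ) : ℂ)) ξ +
      (-((R ^ 2 : ℝ) : ℂ)) * FTR R (fun w => u w * ((b w * ⟪h w ξ, ξ⟫_ℝ : ℝ) : ℂ)) ξ +
      (-(Complex.I * (R : ℂ))) * FTR R (fun w => u w * ((k1 ξ w : ℝ) : ℂ)) ξ := by
    rw [← AEID_smul, ← AEID_smul, ← AEID_add R ξ c1 (AEID_csmul _ c3), ← AEID_add R ξ (AEID_cadd c1 (AEID_csmul _ c3)) (AEID_csmul _ (c2 ξ))]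
    have e1 : FTR R (fun w => LHO h u w * ((b w : ℝ) : ℂ)) ξ =
        ∫ w : V d, LHO h u w * (((b w : ℝ) : ℂ) * Complex.exp (-(((R * ⟪ξ, w⟫_ℝ : ℝ) : ℂ) * Complex.I))) := by
      unfold FTR
      simp only [mul_assoc]
    rw [e1, hG]
    unfold FTR
    refine integral_congr_ae (Eventually.of_forall fun w => ?_)
    simp only []
    rw [h2 d h b R ξ w hh hsym hb]
    simp only [hk1]
    push_cast
    ring
  have hB : ∑ i : Fin d, ((ξ i : ℝ) : ℂ) * FTR R (fun w => u w * ((k1 (EuclideanSpace.single i 1) w : ℝ) : ℂ)) ξ =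
      FTR R (fun w => u w * ((k1 ξ w : ℝ) : ℂ)) ξ := by
    simp only [← AEID_smul]
    rw [← AEID_sum R ξ (fun i => AEID_csmul _ (c2 _))]
    have e1 : (fun w => ∑ i : Fin d, ((ξ i : ℝ) : ℂ) * (u w * ((k1 (EuclideanSpace.single i 1) w : ℝ) : ℂ))) = fun w => u w * ((k1 ξ w : ℝ) : ℂ) := by
      funext w
      have e2 : k1 ξ w = ∑ i : Fin d, ξ i * k1 (EuclideanSpace.single i 1) w := by
        simp only [hk1]
        have e3 := AEID_lin ((fderiv ℝ b w).comp (h w)) ξ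
        simp only [ContinuousLinearMap.comp_apply] at e3
        rw [e3, AEID_dvh h ξ w, Finset.mul_sum, Finset.mul_sum, ← Finset.sum_add_distrib]
        exact Finset.sum_congr rfl fun i _ => by ring
      rw [e2]
      push_cast
      rw [Finset.mul_sum]
      exact Finset.sum_congr rfl fun i _ => by ring
    rw [e1]
  have hC : ∑ i : Fin d, ∑ j : Fin d, ((ξ i * ξ j : ℝ) : ℂ) * FTR R (fun w => u w * ((b w * ⟪(h0 - h w) (EuclideanSpace.single i 1), (EuclideanSpace.single j 1 : V d)⟫_ℝ : ℝ) : ℂ)) ξ =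
      ((⟪h0 ξ, ξ⟫_ℝ : ℝ) : ℂ) * FTR R (fun w => u w * ((b w : ℝ) : ℂ)) ξ + (-1) * FTR R (fun w => u w * ((b w * ⟪h w ξ, ξ⟫_ℝ : ℝ) : ℂ)) ξ := by
    simp only [← AEID_smul]
    rw [← AEID_add R ξ (AEID_csmul _ c0) (AEID_csmul _ c3)]
    have e0 : ∀ i : Fin d, ∑ j : Fin d, FTR R (fun w => ((ξ i * ξ j : ℝ) : ℂ) * (u w * ((b w * ⟪(h0 - h w) (EuclideanSpace.single i 1), (EuclideanSpace.single j 1 : V d)⟫_ℝ : ℝ) : ℂ))) ξ =
        FTR R (fun w => ∑ j : Fin d, ((ξ i * ξ j : ℝ) : ℂ) * (u w * ((b w * ⟪(h0 - h w) (EuclideanSpace.single i 1), (EuclideanSpace.single j 1 : V d)⟫_ℝ : ℝ) : ℂ))) ξ :=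
      fun i => (AEID_sum R ξ (fun j => AEID_csmul _ (c4 i j))).symm
    simp only [e0]
    have e00 : ∀ i : Fin d, AEID_CC (fun w => ∑ j : Fin d, ((ξ i * ξ j : ℝ) : ℂ) * (u w * ((b w * ⟪(h0 - h w) (EuclideanSpace.single i 1), (EuclideanSpace.single j 1 : V d)⟫_ℝ : ℝ) : ℂ))) := by
      intro i
      refine ⟨continuous_finset_sum _ fun j _ => (AEID_csmul _ (c4 i j)).1, HasCompactSupport.intro hbs fun w hw => ?_⟩
      refine Finset.sum_eq_zero fun j _ => ?_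
      rw [(AEID_zero hw).1]
      simp
    rw [← AEID_sum R ξ e00]
    have e1 : (fun w => ∑ i : Fin d, ∑ j : Fin d, ((ξ i * ξ j : ℝ) : ℂ) * (u w * ((b w * ⟪(h0 - h w) (EuclideanSpace.single i 1), (EuclideanSpace.single j 1 : V d)⟫_ℝ : ℝ) : ℂ))) =
        fun w => ((⟪h0 ξ, ξ⟫_ℝ : ℝ) : ℂ) * (u w * ((b w : ℝ) : ℂ)) + (-1) * (u w * ((b w * ⟪h w ξ, ξ⟫_ℝ : ℝ) : ℂ)) := by
      funext w
      have e2 := AEID_quad (h0 - h w) ξ
      have e3 : ⟪(h0 - h w) ξ, ξ⟫_ℝ = ⟪h0 ξ, ξ⟫_ℝ - ⟪h w ξ, ξ⟫_ℝ := by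
        rw [ContinuousLinearMap.sub_apply, inner_sub_left]
      rw [e3] at e2
      have e4 : ((⟪h0 ξ, ξ⟫_ℝ : ℝ) : ℂ) - ((⟪h w ξ, ξ⟫_ℝ : ℝ) : ℂ) = ∑ i : Fin d, ∑ j : Fin d, ((ξ i : ℝ) : ℂ) * ((ξ j : ℝ) : ℂ) *
          ((⟪(h0 - h w) (EuclideanSpace.single i 1), (EuclideanSpace.single j 1 : V d)⟫_ℝ : ℝ) : ℂ) := by
        rw [← Complex.ofReal_sub, e2]
        push_cast
        rfl
      have e5 : ∑ i : Fin d, ∑ j : Fin d, ((ξ i * ξ j : ℝ) : ℂ) * (u w * ((b w * ⟪(h0 - h w) (EuclideanSpace.single i 1), (EuclideanSpace.single j 1 : V d)⟫_ℝ : ℝ) : ℂ)) =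
          (u w * ((b w : ℝ) : ℂ)) * ∑ i : Fin d, ∑ j : Fin d, ((ξ i : ℝ) : ℂ) * ((ξ j : ℝ) : ℂ) *
          ((⟪(h0 - h w) (EuclideanSpace.single i 1), (EuclideanSpace.single j 1 : V d)⟫_ℝ : ℝ) : ℂ) := by
        rw [Finset.mul_sum]
        refine Finset.sum_congr rfl fun i _ => ?_
        rw [Finset.mul_sum]
        refine Finset.sum_congr rfl fun j _ => ?_
        push_cast
        ring
      rw [e5, ← e4]
      push_cast
      ring
    rw [e1]
  have hB' : ∑ i : Fin d, ((ξ i : ℝ) : ℂ) * FTR R (fun w => u w * ((2 * fderiv ℝ b w (h w (EuclideanSpace.single i 1)) + b w * dvh h (EuclideanSpace.single i 1) w : ℝ) : ℂ)) ξ =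
      FTR R (fun w => u w * ((k1 ξ w : ℝ) : ℂ)) ξ := hB
  rw [hB', hC, hA]
  push_cast
  ring

end

end Pool.Agent.VD
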