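import Pool.Agent.helper84.VD.SpecB5

/-! Row vd:DCM (comparison of the determinants) of project VD. -/

set_option autoImplicit false

open scoped ContDiff Topology InnerProductSpace ENNReal
open MeasureTheory Filter Set

namespace Pool.Agent.VD

open Pool.Agent.VQ (CH qZ)
open Pool.Agent.VDE (dir)

noncomputable section

theorem DCM_sc {d : ℕ} (a b : ℝ) (p : P d) : sc a (sc b p) = sc (a * b) p := by
  unfold sc
  simp only [smul_smul]

theorem DCM_sc1 {d : ℕ} (p : P d) : sc 1 p = p := by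
  unfold sc
  simp only [one_smul]

/-- scaling of the block -/
theorem DCM_scal {d : ℕ} {Γ : Type} [Group Γ] [MulAction Γ (V d)] {Φ : ℝ → P d → P d} (hsf : ∀ t l p, Φ t (sc l p) = sc l (Φ (l * t) p))
    (hd : ∀ γ : Γ, ContDiff ℝ ∞ (MM Φ γ : ℝ × P d → P d)) (γ : Γ) (t lam : ℝ) (p : P d) :
    Bx Φ γ (lam * t) p = lam • Bx Φ γ t (sc lam p) := by
  have hdf : ∀ x, HasFDerivAt (MM Φ γ : ℝ × P d → P d) (fderiv ℝ (MM Φ γ) x) x := fun x =>
    (((hd γ).differentiable (by simp)) x).hasFDerivAt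
  -- the linear map
  let S : P d →L[ℝ] P d := (ContinuousLinearMap.fst ℝ (V d) (V d)).prod (lam • ContinuousLinearMap.snd ℝ (V d) (V d))
  have hS : ∀ w : P d, S w = sc lam w := fun w => rfl
  have h1 : HasFDerivAt (fun w : P d => (MM Φ γ (t, sc lam w)).1)
      ((ContinuousLinearMap.fst ℝ (V d) (V d)).comp ((fderiv ℝ (MM Φ γ) (t, sc lam p)).comp ((ContinuousLinearMap.inr ℝ ℝ (P d)).comp S))) p := by
    have e1 : HasFDerivAt (fun w : P d => ((t, S w) : ℝ × P d)) ((ContinuousLinearMap.inr ℝ ℝ (P d)).comp S) p := by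
      have e2 : HasFDerivAt (fun w : P d => ((t, S w) : ℝ × P d)) ((0 : P d →L[ℝ] ℝ).prod S) p :=
        (hasFDerivAt_const (𝕜 := ℝ) t p).prodMk (S.hasFDerivAt (x := p))
      have e3 : ((0 : P d →L[ℝ] ℝ).prod S) = (ContinuousLinearMap.inr ℝ ℝ (P d)).comp S := rfl
      rw [e3] at e2
      exact e2
    have e4 := (hdf (t, S p)).comp p e1
    have e5 := (ContinuousLinearMap.fst ℝ (V d) (V d)).hasFDerivAt.comp p e4
    exact e5
  have h2 : HasFDerivAt (fun w : P d => (MM Φ γ (lam * t, w)).1)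
      ((ContinuousLinearMap.fst ℝ (V d) (V d)).comp ((fderiv ℝ (MM Φ γ) (lam * t, p)).comp (ContinuousLinearMap.inr ℝ ℝ (P d)))) p := by
    have e1 : HasFDerivAt (fun w : P d => ((lam * t, w) : ℝ × P d)) (ContinuousLinearMap.inr ℝ ℝ (P d)) p := by
      have e2 : HasFDerivAt (fun w : P d => ((lam * t, w) : ℝ × P d)) ((0 : P d →L[ℝ] ℝ).prod (ContinuousLinearMap.id ℝ (P d))) p :=
        (hasFDerivAt_const (𝕜 := ℝ) (lam * t) p).prodMk (hasFDerivAt_id p)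
      exact e2
    have e4 := (hdf (lam * t, p)).comp p e1
    have e5 := (ContinuousLinearMap.fst ℝ (V d) (V d)).hasFDerivAt.comp p e4
    exact e5
  have h3 : (fun w : P d => (MM Φ γ (t, sc lam w)).1) = fun w : P d => (MM Φ γ (lam * t, w)).1 := by
    funext w
    unfold MM
    simp only
    rw [hsf]
    rfl
  rw [h3] at h1
  have h4 := h1.unique h2
  ext1 η
  have h5 := congrArg (fun A : P d →L[ℝ] V d => A (0, η)) h4
  have h6 : (fderiv ℝ (MM Φ γ) (t, sc lam p) (0, (0, lam • η))).1 = (fderiv ℝ (MM Φ γ) (lam * t, p) (0, (0, η))).1 := h5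
  have h7 : ((0, (0, lam • η)) : ℝ × P d) = lam • ((0, (0, η)) : ℝ × P d) := by
    simp
  rw [h7, map_smul] at h6
  exact h6.symm

/-- bounds of the block -/
theorem DCM_bd {d : ℕ} {Γ : Type} [Group Γ] [MulAction Γ (V d)] (Φ : ℝ → P d → P d) (γ : Γ) (t t' : ℝ) (p q : P d) (N δ : ℝ) (hN : 0 ≤ N) (hδ : 0 ≤ δ)
    (h1 : ∀ v : P d, ‖fderiv ℝ (MM Φ γ) (t, p) (0, v)‖ ≤ N * ‖v‖) (h2 : ∀ v : P d, ‖fderiv ℝ (MM Φ γ) (t', q) (0, v)‖ ≤ N * ‖v‖)
    (h3 : ∀ v : P d, ‖fderiv ℝ (MM Φ γ) (t, p) (0, v) - fderiv ℝ (MM Φ γ) (t', q) (0, v)‖ ≤ δ * ‖v‖) :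
    ‖Bx Φ γ t p‖ ≤ N ∧ ‖Bx Φ γ t' q‖ ≤ N ∧ ‖Bx Φ γ t p - Bx Φ γ t' q‖ ≤ δ := by
  have e0 : ∀ η : V d, ‖((0, η) : P d)‖ = ‖η‖ := fun η => by
    rw [Prod.norm_mk, norm_zero]
    exact max_eq_right (norm_nonneg η)
  refine ⟨?_, ?_, ?_⟩
  · refine ContinuousLinearMap.opNorm_le_bound _ hN fun η => ?_
    have h4 := h1 (0, η)
    rw [e0] at h4
    exact (norm_fst_le _).trans h4
  · refine ContinuousLinearMap.opNorm_le_bound _ hN fun η => ?_
    have h4 := h2 (0, η)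
    rw [e0] at h4
    exact (norm_fst_le _).trans h4
  · refine ContinuousLinearMap.opNorm_le_bound _ hδ fun η => ?_
    have h4 := h3 (0, η)
    rw [e0] at h4
    have h5 : (Bx Φ γ t p - Bx Φ γ t' q) η = (fderiv ℝ (MM Φ γ) (t, p) (0, (0, η)) - fderiv ℝ (MM Φ γ) (t', q) (0, (0, η))).1 := rfl
    rw [h5]
    exact (norm_fst_le _).trans h4

theorem DCM_proof (hCRX : CRX_stmt) (hDLP : DLP_stmt) : DCM_stmt := by
  intro d C K1 hC hK1
  obtain ⟨M0, hM0, HX⟩ := hCRX d C hC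
  obtain ⟨Cd, hCd, HD⟩ := hDLP d
  obtain ⟨A, hA⟩ : ∃ A : ℝ, A = 10 * K1 * Cd * C ^ 3 := ⟨_, rfl⟩
  obtain ⟨Bb, hB⟩ : ∃ Bb : ℝ, Bb = 2 * M0 ^ (d + 1) := ⟨_, rfl⟩
  obtain ⟨T, hT⟩ : ∃ T : ℝ, T = 2 ^ (d + 1) := ⟨_, rfl⟩
  have hC3 : 1 ≤ C ^ 3 := one_le_pow₀ hC
  have hCC3 : C ≤ C ^ 3 := le_self_pow₀ hC (by norm_num)
  have hC23 : C ^ 2 ≤ C ^ 3 := pow_le_pow_right₀ hC (by norm_num)
  have hKC : 1 ≤ K1 * Cd := one_le_mul_of_one_le_of_one_le hK1 hCd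
  have hA10 : 10 * C ^ 3 ≤ A := by
    rw [hA]
    nlinarith
  have hA1 : 1 ≤ A := by linarith
  have hM0d : 1 ≤ M0 ^ (d + 1) := one_le_pow₀ hM0
  have hM0d' : M0 ≤ M0 ^ (d + 1) := le_self_pow₀ hM0 (by omega)
  have hB1 : 1 ≤ Bb := by linarith
  have hT1 : 1 ≤ T := by
    rw [hT]
    exact one_le_pow₀ (by norm_num)
  have hAB1 : 1 ≤ A * Bb := one_le_mul_of_one_le_of_one_le hA1 hB1
  have hM1 : 1 ≤ A * Bb * T := one_le_mul_of_one_le_of_one_le hAB1 hT1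
  refine ⟨A * Bb * T, hM1, ?_⟩
  intro Γ _ _ K G Φ D hG hE n γ l s p q hl1 hl2 hp hMp hq hs hD hMs hdet
  have hl0 : 0 < l := by linarith
  have hpn : nrm G p = 1 := hp.2
  -- consequences of the smallness
  have hkey : A * Bb ^ (n + 1) * s ≤ 1 := by
    refine le_trans (mul_le_mul_of_nonneg_right ?_ hs) hMs
    rw [mul_pow, mul_pow]
    have e1 : A ≤ A ^ (n + 1) := le_self_pow₀ hA1 (by omega)
    have e2 : 1 ≤ T ^ (n + 1) := one_le_pow₀ hT1
    have e3 : 0 ≤ Bb ^ (n + 1) := by positivity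
    have e4 : A * Bb ^ (n + 1) ≤ A ^ (n + 1) * Bb ^ (n + 1) := mul_le_mul_of_nonneg_right e1 e3
    have e5 : 0 ≤ A ^ (n + 1) * Bb ^ (n + 1) := by positivity
    exact e4.trans (le_mul_of_one_le_right e5 e2)
  have hBn : 1 ≤ Bb ^ (n + 1) := one_le_pow₀ hB1
  have h10 : 10 * C ^ 3 * s ≤ 1 := by
    refine le_trans ?_ hkey
    refine mul_le_mul_of_nonneg_right ?_ hs
    exact hA10.trans (le_mul_of_one_le_right (by linarith) hBn)
  have hC3s : C ^ 3 * s ≤ 1 / 10 := by linarith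
  have hCs : C * s ≤ C ^ 3 * s := mul_le_mul_of_nonneg_right hCC3 hs
  have hC2s : C ^ 2 * s ≤ C ^ 3 * s := mul_le_mul_of_nonneg_right hC23 hs
  have hs3 : s ≤ C ^ 3 * s := le_mul_of_one_le_left hs hC3
  -- the length of `q`
  obtain ⟨lam, hlam⟩ : ∃ lam : ℝ, lam = nrm G q := ⟨_, rfl⟩
  have hnl : nrm G (sc l p) = l := by
    rw [hE.sn, hpn, mul_one, abs_of_pos hl0]
  have hll : |l - lam| ≤ C * s := by
    have h1 := hE.nl (sc l p) q (by rw [hnl]; linarith) hq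
    rw [hnl, ← hlam] at h1
    exact h1.trans (mul_le_mul_of_nonneg_left hD (by linarith))
  have hlb := abs_le.1 hll
  have hlam1 : 1 / 2 ≤ lam := by linarith [hlb.1, hlb.2]
  have hlam2 : lam ≤ 3 / 2 := by
    rw [hlam]
    exact hq
  have hlam0 : 0 < lam := by linarith
  obtain ⟨q2, hq2⟩ : ∃ q2 : P d, q2 = sc (1 / lam) q := ⟨_, rfl⟩
  have hqq : sc lam q2 = q := by
    rw [hq2, DCM_sc, mul_one_div_cancel hlam0.ne', DCM_sc1]
  have hq2n : nrm G q2 = 1 := by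
    rw [hq2, hE.sn, ← hlam, abs_of_pos (by positivity), one_div_mul_cancel hlam0.ne']
  -- the distance
  have hDpq : D p q2 ≤ 4 * C ^ 2 * s := by
    have h1 : D p (sc (1 / l) q) ≤ 2 * s := by
      have e1 : sc (1 / l) (sc l p) = p := by
        rw [DCM_sc, one_div_mul_cancel hl0.ne', DCM_sc1]
      have e2 := hE.s2 (sc l p) q (1 / l) (by positivity) (by
        rw [div_le_iff₀ hl0]
        linarith)
      rw [e1] at e2
      exact e2.trans (mul_le_mul_of_nonneg_left hD (by norm_num))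
    have h2 : D q2 (sc (1 / l) q) ≤ 4 / 3 * C ^ 2 * s := by
      have e1 : sc (1 / l) q = sc (lam / l) q2 := by
        rw [← hqq, DCM_sc]
        congr 1
        field_simp
      have e2 := hE.s1 q2 (lam / l) (by rw [hq2n]; norm_num) (by positivity) (by
        rw [div_le_iff₀ hl0]
        linarith)
      rw [e1]
      have e3 : |lam / l - 1| ≤ 4 / 3 * (C * s) := by
        have e4 : lam / l - 1 = -((l - lam) / l) := by
          field_simp
          ring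
        rw [e4, abs_neg, abs_div, abs_of_pos hl0, div_le_iff₀ hl0]
        have e5 : 0 ≤ C * s := by positivity
        nlinarith
      calc D q2 (sc (lam / l) q2) ≤ C * |lam / l - 1| := e2
        _ ≤ C * (4 / 3 * (C * s)) := mul_le_mul_of_nonneg_left e3 (by linarith)
        _ = 4 / 3 * C ^ 2 * s := by ring
    have h3 := hE.dt p (sc (1 / l) q) q2
    have h4 : D (sc (1 / l) q) q2 = D q2 (sc (1 / l) q) := (hE.d0 _ _).2.2
    rw [h4] at h3
    have h5 : s ≤ C ^ 2 * s := le_mul_of_one_le_left hs (one_le_pow₀ hC)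
    linarith
  have hpq : ‖p - q2‖ ≤ 4 * C ^ 3 * s := by
    have h1 : D p q2 ≤ 1 / C := by
      rw [le_div_iff₀ (by linarith)]
      calc D p q2 * C ≤ 4 * C ^ 2 * s * C := mul_le_mul_of_nonneg_right hDpq (by linarith)
        _ = 4 * (C ^ 3 * s) := by ring
        _ ≤ 1 := by linarith
    have h2 := hG.d2 p hp p q2 (by rw [sub_self, norm_zero]; positivity) h1
    calc ‖p - q2‖ ≤ C * D p q2 := h2
      _ ≤ C * (4 * C ^ 2 * s) := mul_le_mul_of_nonneg_left hDpq (by linarith)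
      _ = 4 * C ^ 3 * s := by ring
  -- the size of the perturbation
  obtain ⟨δ, hδ⟩ : ∃ δ : ℝ, δ = ‖p - q2‖ + n * |l - lam| := ⟨_, rfl⟩
  have hδ0 : 0 ≤ δ := by
    rw [hδ]
    positivity
  have hn2 : (n : ℝ) + 1 ≤ 2 ^ (n + 1) := by
    have h1 : n + 1 < 2 ^ (n + 1) := Nat.lt_two_pow_self
    exact_mod_cast h1.le
  have hδb : δ ≤ 5 * C ^ 3 * 2 ^ (n + 1) * s := by
    rw [hδ]
    have h1 : (n : ℝ) * |l - lam| ≤ n * (C ^ 3 * s) := mul_le_mul_of_nonneg_left (hll.trans hCs) (by positivity)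
    have h2 : 0 ≤ C ^ 3 * s := by positivity
    have h3 : (C ^ 3 * s) * ((n : ℝ) + 1) ≤ (C ^ 3 * s) * 2 ^ (n + 1) := mul_le_mul_of_nonneg_left hn2 h2
    have h4 : (C ^ 3 * s) * 1 ≤ (C ^ 3 * s) * 2 ^ (n + 1) := mul_le_mul_of_nonneg_left (one_le_pow₀ (by norm_num)) h2
    have h5 : 5 * C ^ 3 * 2 ^ (n + 1) * s = 5 * ((C ^ 3 * s) * 2 ^ (n + 1)) := by ring
    rw [h5]
    nlinarith
  have hNd : ∀ N : ℝ, N = M0 ^ (n + 1) → Cd * N ^ d * (N * δ) ≤ 1 / (2 * K1) := by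
    intro N hN
    have e1 : N ^ d * N = (M0 ^ (d + 1)) ^ (n + 1) := by
      rw [hN, ← pow_mul, ← pow_mul, ← pow_add]
      congr 1
      ring
    have e2 : Cd * N ^ d * (N * δ) = Cd * (M0 ^ (d + 1)) ^ (n + 1) * δ := by
      rw [← e1]
      ring
    rw [e2, le_div_iff₀ (by positivity)]
    have e3 : Cd * (M0 ^ (d + 1)) ^ (n + 1) * δ ≤ Cd * (M0 ^ (d + 1)) ^ (n + 1) * (5 * C ^ 3 * 2 ^ (n + 1) * s) :=
      mul_le_mul_of_nonneg_left hδb (by positivity)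
    have e4 : Cd * (M0 ^ (d + 1)) ^ (n + 1) * (5 * C ^ 3 * 2 ^ (n + 1) * s) * (2 * K1) = A * Bb ^ (n + 1) * s := by
      rw [hA, hB, mul_pow]
      ring
    calc Cd * (M0 ^ (d + 1)) ^ (n + 1) * δ * (2 * K1) ≤ Cd * (M0 ^ (d + 1)) ^ (n + 1) * (5 * C ^ 3 * 2 ^ (n + 1) * s) * (2 * K1) :=
          mul_le_mul_of_nonneg_right e3 (by positivity)
      _ = A * Bb ^ (n + 1) * s := e4
      _ ≤ 1 := hkey
  have hsmall : M0 ^ (n + 1) * δ ≤ 1 := by
    have e1 : M0 ^ (n + 1) ≤ (M0 ^ (d + 1)) ^ (n + 1) := pow_le_pow_left₀ (by linarith) hM0d' _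
    have e2 : M0 ^ (n + 1) * δ ≤ (M0 ^ (d + 1)) ^ (n + 1) * (5 * C ^ 3 * 2 ^ (n + 1) * s) :=
      mul_le_mul e1 hδb hδ0 (by positivity)
    have e3 : (M0 ^ (d + 1)) ^ (n + 1) * (5 * C ^ 3 * 2 ^ (n + 1) * s) ≤ A * Bb ^ (n + 1) * s := by
      have e4 : A * Bb ^ (n + 1) * s = (2 * (K1 * Cd)) * ((M0 ^ (d + 1)) ^ (n + 1) * (5 * C ^ 3 * 2 ^ (n + 1) * s)) := by
        rw [hA, hB, mul_pow]
        ring
      rw [e4]
      exact le_mul_of_one_le_left (by positivity) (by linarith)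
    exact e2.trans (e3.trans hkey)
  have hX := HX Γ K G Φ D hG n γ l lam p q2 (by linarith) (by linarith) hlam1 (by linarith) hp hMp (by rw [← hδ]; exact hsmall)
  have hN0 : 0 ≤ M0 ^ (n + 1) := by positivity
  obtain ⟨b1, b2, b3⟩ := DCM_bd Φ γ (n * l) (n * lam) p q2 (M0 ^ (n + 1)) (M0 ^ (n + 1) * δ) hN0 (by positivity)
    (fun v => (hX v).1) (fun v => (hX v).2.1) (fun v => by
      have h1 := (hX v).2.2
      rw [← hδ] at h1
      exact h1)
  have hdd := HD (Bx Φ γ (n * l) p) (Bx Φ γ (n * lam) q2) (M0 ^ (n + 1)) (one_le_pow₀ hM0) b1 b2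
  have hdd2 : |(Bx Φ γ (n * l) p).det - (Bx Φ γ (n * lam) q2).det| ≤ 1 / (2 * K1) := by
    refine hdd.trans (le_trans ?_ (hNd _ rfl))
    exact mul_le_mul_of_nonneg_left b3 (by positivity)
  have hsc : Bx Φ γ (n * lam) q2 = lam • Bx Φ γ n q := by
    rw [mul_comm, DCM_scal hE.sf hG.dif γ n lam q2, hqq]
  have hdet2 : |(Bx Φ γ (n * lam) q2).det| = lam ^ d * |(Bx Φ γ n q).det| := by
    rw [hsc]
    have e1 : (lam • Bx Φ γ n q).det = lam ^ d * (Bx Φ γ n q).det := by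
      have e2 := LinearMap.det_smul lam ((Bx Φ γ n q : V d →L[ℝ] V d) : V d →ₗ[ℝ] V d)
      rw [finrank_euclideanSpace_fin] at e2
      exact e2
    rw [e1, abs_mul, abs_of_nonneg (by positivity)]
  have hhalf : 1 / (2 * K1) ≤ |(Bx Φ γ (n * l) p).det| / 2 := by
    rw [div_le_div_iff₀ (by positivity) (by norm_num)]
    linarith
  have h1 : |(Bx Φ γ (n * l) p).det| ≤ 2 * |(Bx Φ γ (n * lam) q2).det| := by
    have e1 := abs_sub_abs_le_abs_sub (Bx Φ γ (n * l) p).det (Bx Φ γ (n * lam) q2).det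
    linarith
  rw [hdet2] at h1
  have h2 : lam ^ d ≤ 2 ^ d := pow_le_pow_left₀ hlam0.le (by linarith) d
  have h3 : 0 ≤ |(Bx Φ γ n q).det| := abs_nonneg _
  calc |(Bx Φ γ (n * l) p).det| ≤ 2 * (lam ^ d * |(Bx Φ γ n q).det|) := h1
    _ ≤ 2 * (2 ^ d * |(Bx Φ γ n q).det|) := mul_le_mul_of_nonneg_left (mul_le_mul_of_nonneg_right h2 h3) (by norm_num)
    _ = T * |(Bx Φ γ n q).det| := by
      rw [hT, pow_succ]
      ring
    _ ≤ A * Bb * T * |(Bx Φ γ n q).det| := by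
      refine mul_le_mul_of_nonneg_right ?_ h3
      exact le_mul_of_one_le_left (by linarith) hAB1

end

end Pool.Agent.VD
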