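import Pool.Agent.helper55.VD.SpecE3

/-!
# MP_07c750_an, project VD, row EES: short times

Adaptation of `Pool/Agent/helper79/VQ/EDS.lean` (helper79); `EES_cs0` is `VSA_cs` of helper89.
-/

set_option autoImplicit false

open scoped ContDiff Topology InnerProductSpace ComplexConjugate ENNReal
open MeasureTheory Filter Set

namespace Pool.Agent.VD

open Pool.Agent.VQ (CH KZ PS perZ cmZ)
open Pool.Agent.RPQ (IsOp)

noncomputable section

theorem EES_cs0 {X : Type} [MeasurableSpace X] (μ : Measure X) (f g : X → ℝ) (hf : Integrable (fun x => f x ^ 2) μ)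
    (hg : Integrable (fun x => g x ^ 2) μ) (hfg : Integrable (fun x => f x * g x) μ) :
    ∫ x, f x * g x ∂μ ≤ Real.sqrt (∫ x, f x ^ 2 ∂μ) * Real.sqrt (∫ x, g x ^ 2 ∂μ) := by
  set A := ∫ x, f x ^ 2 ∂μ with hA
  set M := ∫ x, f x * g x ∂μ with hM
  set B := ∫ x, g x ^ 2 ∂μ with hB
  have hA0 : 0 ≤ A := integral_nonneg (fun x => by positivity)
  have key : ∀ x : ℝ, 0 ≤ A * (x * x) + (-2 * M) * x + B := by
    intro s
    have h1 : ∫ x, (s * f x - g x) ^ 2 ∂μ = A * (s * s) + (-2 * M) * s + B := by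
      have e1 : ∀ x, (s * f x - g x) ^ 2 = (s * s) * f x ^ 2 + ((-2 * s) * (f x * g x) + g x ^ 2) := fun x => by ring
      simp only [e1]
      have j1 : Integrable (fun x => (s * s) * f x ^ 2) μ := hf.const_mul _
      have j2 : Integrable (fun x => (-2 * s) * (f x * g x)) μ := hfg.const_mul _
      have j3 : Integrable (fun x => (-2 * s) * (f x * g x) + g x ^ 2) μ := j2.add hg
      rw [integral_add j1 j3, integral_add j2 hg, integral_const_mul, integral_const_mul]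
      ring
    rw [← h1]
    exact integral_nonneg (fun x => by positivity)
  have h2 := discrim_le_zero key
  rw [discrim] at h2
  have h3 : M ^ 2 ≤ A * B := by nlinarith
  rw [← Real.sqrt_mul hA0]
  exact (le_abs_self M).trans (by rw [← Real.sqrt_sq_eq_abs]; exact Real.sqrt_le_sqrt h3)

section abstract

variable {X : Type} [MeasurableSpace X] (μ : Measure X) {f g : X → ℂ}

theorem EES_mul (mf : AEStronglyMeasurable f μ) (mg : AEStronglyMeasurable g μ)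
    (hf : Integrable (fun x => ‖f x‖ ^ 2) μ) (hg : Integrable (fun x => ‖g x‖ ^ 2) μ) :
    Integrable (fun x => ‖f x‖ * ‖g x‖) μ := by
  refine Integrable.mono' ((hf.add hg).div_const 2) (mf.norm.mul mg.norm) (Eventually.of_forall fun x => ?_)
  rw [Real.norm_of_nonneg (by positivity)]
  show ‖f x‖ * ‖g x‖ ≤ (‖f x‖ ^ 2 + ‖g x‖ ^ 2) / 2
  nlinarith [sq_nonneg (‖f x‖ - ‖g x‖)]

theorem EES_mulC (mf : AEStronglyMeasurable f μ) (mg : AEStronglyMeasurable g μ)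
    (hf : Integrable (fun x => ‖f x‖ ^ 2) μ) (hg : Integrable (fun x => ‖g x‖ ^ 2) μ) :
    Integrable (fun x => f x * conj (g x)) μ := by
  refine Integrable.mono' (EES_mul μ mf mg hf hg) (mf.mul (Complex.continuous_conj.comp_aestronglyMeasurable mg))
    (Eventually.of_forall fun x => ?_)
  rw [norm_mul, RCLike.norm_conj]

theorem EES_cs (mf : AEStronglyMeasurable f μ) (mg : AEStronglyMeasurable g μ)
    (hf : Integrable (fun x => ‖f x‖ ^ 2) μ) (hg : Integrable (fun x => ‖g x‖ ^ 2) μ) :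
    ‖∫ x, f x * conj (g x) ∂μ‖ ≤ Real.sqrt (∫ x, ‖f x‖ ^ 2 ∂μ) * Real.sqrt (∫ x, ‖g x‖ ^ 2 ∂μ) := by
  refine (norm_integral_le_of_norm_le (EES_mul μ mf mg hf hg) (Eventually.of_forall fun x => ?_)).trans
    (EES_cs0 μ _ _ hf hg (EES_mul μ mf mg hf hg))
  rw [norm_mul, RCLike.norm_conj]

theorem EES_sub (mf : AEStronglyMeasurable f μ) (mg : AEStronglyMeasurable g μ)
    (hf : Integrable (fun x => ‖f x‖ ^ 2) μ) (hg : Integrable (fun x => ‖g x‖ ^ 2) μ) :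
    Integrable (fun x => ‖f x - g x‖ ^ 2) μ := by
  refine Integrable.mono' ((hf.add hg).const_mul 2) ((mf.sub mg).norm.pow 2) (Eventually.of_forall fun x => ?_)
  rw [Real.norm_of_nonneg (by positivity)]
  show ‖f x - g x‖ ^ 2 ≤ 2 * (‖f x‖ ^ 2 + ‖g x‖ ^ 2)
  have h1 := norm_sub_le (f x) (g x)
  have h2 := norm_nonneg (f x - g x)
  nlinarith [sq_nonneg (‖f x‖ - ‖g x‖), pow_le_pow_left₀ h2 h1 2]

theorem EES_mink (mf : AEStronglyMeasurable f μ) (mg : AEStronglyMeasurable g μ)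
    (hf : Integrable (fun x => ‖f x‖ ^ 2) μ) (hg : Integrable (fun x => ‖g x‖ ^ 2) μ) :
    Real.sqrt (∫ x, ‖g x‖ ^ 2 ∂μ) ≤ Real.sqrt (∫ x, ‖f x‖ ^ 2 ∂μ) + Real.sqrt (∫ x, ‖f x - g x‖ ^ 2 ∂μ) := by
  have hd := EES_sub μ mf mg hf hg
  have hn1 : 0 ≤ ∫ x, ‖f x‖ ^ 2 ∂μ := integral_nonneg (fun z => by positivity)
  have hn2 : 0 ≤ ∫ x, ‖f x - g x‖ ^ 2 ∂μ := integral_nonneg (fun z => by positivity)
  apply Real.sqrt_le_iff.mpr
  refine ⟨by positivity, ?_⟩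
  have i3 := EES_mul μ mf (mf.sub mg) hf hd
  have h1 : ∫ x, ‖g x‖ ^ 2 ∂μ ≤ ∫ x, (‖f x‖ ^ 2 + (2 * (‖f x‖ * ‖f x - g x‖) + ‖f x - g x‖ ^ 2)) ∂μ := by
    refine integral_mono hg (hf.add ((i3.const_mul 2).add hd)) (fun z => ?_)
    show ‖g z‖ ^ 2 ≤ ‖f z‖ ^ 2 + (2 * (‖f z‖ * ‖f z - g z‖) + ‖f z - g z‖ ^ 2)
    have h2 : ‖g z‖ ≤ ‖f z‖ + ‖f z - g z‖ := by
      have e : g z = f z - (f z - g z) := by ring
      calc ‖g z‖ = ‖f z - (f z - g z)‖ := by rw [← e]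
        _ ≤ _ := norm_sub_le _ _
    have h3 := norm_nonneg (g z)
    nlinarith [pow_le_pow_left₀ h3 h2 2]
  have j1 : Integrable (fun z => 2 * (‖f z‖ * ‖f z - g z‖)) μ := i3.const_mul 2
  have j2 : Integrable (fun z => 2 * (‖f z‖ * ‖f z - g z‖) + ‖f z - g z‖ ^ 2) μ := j1.add hd
  rw [integral_add hf j2, integral_add j1 hd, integral_const_mul] at h1
  have h4 := EES_cs0 μ (fun x => ‖f x‖) (fun x => ‖f x - g x‖) hf hd i3
  have h5 := Real.sq_sqrt hn1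
  have h6 := Real.sq_sqrt hn2
  nlinarith

theorem EES_eta (mf : AEStronglyMeasurable f μ) (mg : AEStronglyMeasurable g μ)
    (hf : Integrable (fun x => ‖f x‖ ^ 2) μ) (hg : Integrable (fun x => ‖g x‖ ^ 2) μ) {η : X → ℝ} (mη : AEStronglyMeasurable η μ)
    (hη : ∀ x, 0 ≤ η x ∧ η x ≤ 1) :
    |(∫ x, η x * ‖f x‖ ^ 2 ∂μ) - ∫ x, η x * ‖g x‖ ^ 2 ∂μ| ≤
      Real.sqrt (∫ x, ‖f x - g x‖ ^ 2 ∂μ) * (Real.sqrt (∫ x, ‖f x‖ ^ 2 ∂μ) + Real.sqrt (∫ x, ‖g x‖ ^ 2 ∂μ)) := by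
  have hd := EES_sub μ mf mg hf hg
  have i1 : Integrable (fun x => η x * ‖f x‖ ^ 2) μ := by
    refine Integrable.mono' hf (mη.mul (mf.norm.pow 2)) (Eventually.of_forall fun x => ?_)
    rw [norm_mul, Real.norm_of_nonneg (hη x).1, Real.norm_of_nonneg (by positivity : (0 : ℝ) ≤ ‖f x‖ ^ 2)]
    exact mul_le_of_le_one_left (by positivity) (hη x).2
  have i2 : Integrable (fun x => η x * ‖g x‖ ^ 2) μ := by
    refine Integrable.mono' hg (mη.mul (mg.norm.pow 2)) (Eventually.of_forall fun x => ?_)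
    rw [norm_mul, Real.norm_of_nonneg (hη x).1, Real.norm_of_nonneg (by positivity : (0 : ℝ) ≤ ‖g x‖ ^ 2)]
    exact mul_le_of_le_one_left (by positivity) (hη x).2
  have i3 := EES_mul μ (mf.sub mg) mf hd hf
  have i4 := EES_mul μ (mf.sub mg) mg hd hg
  rw [← integral_sub i1 i2, ← Real.norm_eq_abs]
  refine (norm_integral_le_of_norm_le (i3.add i4) (Eventually.of_forall fun x => ?_)).trans ?_
  · show ‖η x * ‖f x‖ ^ 2 - η x * ‖g x‖ ^ 2‖ ≤ ‖f x - g x‖ * ‖f x‖ + ‖f x - g x‖ * ‖g x‖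
    have e1 : η x * ‖f x‖ ^ 2 - η x * ‖g x‖ ^ 2 = η x * ((‖f x‖ - ‖g x‖) * (‖f x‖ + ‖g x‖)) := by ring
    rw [e1, norm_mul, norm_mul, Real.norm_of_nonneg (hη x).1, Real.norm_of_nonneg (by positivity : (0 : ℝ) ≤ ‖f x‖ + ‖g x‖),
      Real.norm_eq_abs]
    have e2 := abs_norm_sub_norm_le (f x) (g x)
    have e3 : |‖f x‖ - ‖g x‖| * (‖f x‖ + ‖g x‖) ≤ ‖f x - g x‖ * (‖f x‖ + ‖g x‖) :=
      mul_le_mul_of_nonneg_right e2 (by positivity)
    have e4 : η x * (|‖f x‖ - ‖g x‖| * (‖f x‖ + ‖g x‖)) ≤ |‖f x‖ - ‖g x‖| * (‖f x‖ + ‖g x‖) :=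
      mul_le_of_le_one_left (by positivity) (hη x).2
    linarith
  · have e5 : ∫ x, (‖f x - g x‖ * ‖f x‖ + ‖f x - g x‖ * ‖g x‖) ∂μ =
        (∫ x, ‖f x - g x‖ * ‖f x‖ ∂μ) + ∫ x, ‖f x - g x‖ * ‖g x‖ ∂μ := integral_add i3 i4
    have e6 := EES_cs0 μ (fun x => ‖f x - g x‖) (fun x => ‖f x‖) hd hf i3
    have e7 := EES_cs0 μ (fun x => ‖f x - g x‖) (fun x => ‖g x‖) hd hg i4
    show ∫ x, (‖f x - g x‖ * ‖f x‖ + ‖f x - g x‖ * ‖g x‖) ∂μ ≤ _
    rw [e5, mul_add]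
    exact add_le_add e6 e7

end abstract

theorem EES_num1 {n x y δ e Z nψ : ℝ} (hn : 0 ≤ n) (hx : 0 ≤ x) (hy : 0 ≤ y) (hδ : 0 ≤ δ) (hδe : δ ≤ e) (he : e ≤ 1 / 100)
    (h1 : (1 - δ) * n ^ 2 ≤ y ^ 2) (h2 : y ≤ x + e * n) (h3 : x ≤ (1 + δ) * n) (hZ : Z = nψ - 2 * x ^ 2 + n ^ 2)
    (h4 : nψ ≤ (1 + δ) ^ 2 * x ^ 2) : Z ≤ 16 * e * n ^ 2 := by
  have h5 : (1 - δ) * n ≤ y := by
    by_contra hcon
    rw [not_le] at hcon
    have h6 : y * y < ((1 - δ) * n) * ((1 - δ) * n) := mul_self_lt_mul_self hy hcon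
    have h7 : ((1 - δ) * n) * ((1 - δ) * n) ≤ (1 - δ) * n ^ 2 := by
      have : 0 ≤ δ * (1 - δ) * n ^ 2 := by
        have : 0 ≤ 1 - δ := by linarith
        positivity
      nlinarith
    nlinarith
  have h8 : (1 - δ - e) * n ≤ x := by nlinarith
  have h9 : 0 ≤ (1 - δ - e) * n := mul_nonneg (by linarith) hn
  have h10 : ((1 - δ - e) * n) ^ 2 ≤ x ^ 2 := pow_le_pow_left₀ h9 h8 2
  have h11 : (1 - 2 * (δ + e)) * n ^ 2 ≤ ((1 - δ - e) * n) ^ 2 := by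
    have : 0 ≤ (δ + e) ^ 2 * n ^ 2 := by positivity
    nlinarith
  have h12 : x ^ 2 ≤ ((1 + δ) * n) ^ 2 := pow_le_pow_left₀ hx h3 2
  have h13 : ((1 + δ) * n) ^ 2 ≤ 4 * n ^ 2 := by
    have : (1 + δ) ^ 2 ≤ 4 := by nlinarith
    rw [mul_pow]
    exact mul_le_mul_of_nonneg_right this (sq_nonneg n)
  have h14 : x ^ 2 ≤ 4 * n ^ 2 := h12.trans h13
  have h15 : nψ ≤ x ^ 2 + 3 * δ * x ^ 2 := by
    have : (1 + δ) ^ 2 ≤ 1 + 3 * δ := by nlinarith
    have := mul_le_mul_of_nonneg_right this (sq_nonneg x)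
    nlinarith
  have h16 : 3 * δ * x ^ 2 ≤ 3 * δ * (4 * n ^ 2) := mul_le_mul_of_nonneg_left h14 (by positivity)
  have h17 : δ * n ^ 2 ≤ e * n ^ 2 := mul_le_mul_of_nonneg_right hδe (sq_nonneg n)
  rw [hZ]
  nlinarith

/-- the numbers -/
theorem EES_num2 : ∃ R1 : ℝ, 1 ≤ R1 ∧ ∀ R : ℝ, R1 ≤ R → R ^ (-(1 / 120) : ℝ) ≤ 1 / 100 ∧ R ^ (-(1 / 5) : ℝ) ≤ R ^ (-(1 / 120) : ℝ) ∧
    8 * R ^ (-(1 / 240) : ℝ) ≤ R ^ (-(1 / 250) : ℝ) ∧ R ^ (-(1 / 120) : ℝ) ≤ R ^ (-(1 / 240) : ℝ) ∧ R ^ (-(9 / 20) : ℝ) ≤ R ^ (-(1 / 240) : ℝ) ∧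
    R ^ (-(9 / 40) : ℝ) ≤ R ^ (-(1 / 5) : ℝ) := by
  obtain ⟨Ra, hRa⟩ := eventually_atTop.1 ((tendsto_rpow_atTop (by norm_num : (0 : ℝ) < 1 / 6000)).eventually_ge_atTop 8)
  obtain ⟨Rb, hRb⟩ := eventually_atTop.1 ((tendsto_rpow_atTop (by norm_num : (0 : ℝ) < 1 / 120)).eventually_ge_atTop 100)
  refine ⟨max 1 (max Ra Rb), le_max_left _ _, fun R hR => ?_⟩
  have h1 : 1 ≤ R := (le_max_left _ _).trans hR
  have h0 : 0 < R := by linarith
  have ha := hRa R ((le_max_left _ _).trans ((le_max_right _ _).trans hR))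
  have hb := hRb R ((le_max_right _ _).trans ((le_max_right _ _).trans hR))
  refine ⟨?_, Real.rpow_le_rpow_of_exponent_le h1 (by norm_num), ?_, Real.rpow_le_rpow_of_exponent_le h1 (by norm_num),
    Real.rpow_le_rpow_of_exponent_le h1 (by norm_num), Real.rpow_le_rpow_of_exponent_le h1 (by norm_num)⟩
  · rw [Real.rpow_neg h0.le, inv_eq_one_div]
    exact one_div_le_one_div_of_le (by norm_num) hb
  · have e1 : R ^ (-(1 / 250) : ℝ) = R ^ (1 / 6000 : ℝ) * R ^ (-(1 / 240) : ℝ) := by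
      rw [← Real.rpow_add h0]; norm_num
    rw [e1]
    exact mul_le_mul_of_nonneg_right ha (Real.rpow_nonneg h0.le _)

theorem EES_sqrt {R a L N : ℝ} (hR : 0 < R) (hL : 0 ≤ L) : Real.sqrt (L ^ 2 * R ^ (2 * a) * N) = L * R ^ a * Real.sqrt N := by
  have h1 : L ^ 2 * R ^ (2 * a) = (L * R ^ a) ^ 2 := by
    rw [mul_pow, ← Real.rpow_natCast (R ^ a), ← Real.rpow_mul hR.le]
    congr 2
    push_cast
    ring
  rw [h1, Real.sqrt_mul (sq_nonneg _), Real.sqrt_sq (mul_nonneg hL (Real.rpow_nonneg hR.le _))]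

/-- the distance of two functions -/
theorem EES_dist {X : Type} [MeasurableSpace X] (μ : Measure X) {φ ψ : X → ℂ} (mφ : AEStronglyMeasurable φ μ) (mψ : AEStronglyMeasurable ψ μ)
    (i2 : Integrable (fun x => ‖φ x‖ ^ 2) μ) (i1 : Integrable (fun x => ‖ψ x‖ ^ 2) μ) {c : ℝ}
    (h : ∫ z, φ z * conj (ψ z) ∂μ = ((c : ℝ) : ℂ)) : ∫ z, ‖φ z - ψ z‖ ^ 2 ∂μ = (∫ z, ‖ψ z‖ ^ 2 ∂μ) - 2 * c + ∫ z, ‖φ z‖ ^ 2 ∂μ := by
  have i3 : Integrable (fun z => φ z * conj (ψ z)) μ := EES_mulC μ mφ mψ i2 i1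
  have i4 : Integrable (fun z => (φ z * conj (ψ z)).re) μ := i3.re
  have f3 : ∫ z, (φ z * conj (ψ z)).re ∂μ = c := by
    have := integral_re i3
    simp only [RCLike.re_eq_complex_re] at this
    rw [this, h, Complex.ofReal_re]
  have g1 : ∀ z, ‖φ z - ψ z‖ ^ 2 = ‖ψ z‖ ^ 2 - 2 * (φ z * conj (ψ z)).re + ‖φ z‖ ^ 2 := by
    intro z
    rw [← Complex.normSq_eq_norm_sq, ← Complex.normSq_eq_norm_sq, ← Complex.normSq_eq_norm_sq, Complex.normSq_sub]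
    ring
  have g2 := integral_add (i1.sub (i4.const_mul 2)) i2
  have g3 := integral_sub i1 (i4.const_mul 2)
  have g4 := integral_const_mul (μ := μ) 2 (fun z => (φ z * conj (ψ z)).re)
  simp only [Pi.sub_apply] at g2 g3
  rw [g3, g4, f3] at g2
  rw [← g2]
  simp only [g1]

/-- functions of the point of phase space -/
theorem EES_meas {Γ : Type} {d : ℕ} {E : Type} [MeasurableSpace E] {g : P d → E} (hg : Measurable g) : Measurable (fun y : YS Γ d => g y.2) :=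
  hg.comp (@measurable_snd Γ (P d) ⊤ _)

/-- the phase is continuous -/
theorem EES_th {d : ℕ} {G : V d → V d →L[ℝ] V d} {Φ : ℝ → P d → P d} (hΦ : IsFlow G Φ) {f : V d → ℝ} (hf : Continuous f) (R t : ℝ) :
    Continuous (thP Φ f R t) := by
  have h1 : Continuous (Function.uncurry fun (p : P d) (s : ℝ) => f (Φ s p).1) := by
    have h2 := hΦ.smooth.continuous
    have h3 : Continuous (fun x : P d × ℝ => Φ x.2 x.1) := h2.comp (continuous_snd.prodMk continuous_fst)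
    exact hf.comp h3.fst
  have h4 := intervalIntegral.continuous_parametric_intervalIntegral_of_continuous' (μ := volume) h1 0 t
  unfold thP
  exact continuous_const.mul h4

theorem EES_proof (hEET : EET_stmt) (hEEF : EEF_stmt) (hEE2 : EE2_stmt) (hASAD : ASAD_stmt) (hAFRD : AFRD_stmt) (hAFMD : AFMD_stmt)
    (hAMVI : AMVI_stmt) (hEYP : EYP_stmt) : EES_stmt := by
  intro d Γ _ _ K k B r0 χ hFd hPU
  obtain ⟨CT, hCT, HT⟩ := hEET d Γ K k B r0 χ hFd hPU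
  obtain ⟨CF, hCF, HF⟩ := hEEF d Γ K k B r0 χ hFd hPU
  obtain ⟨CW, hCW, HW⟩ := hEE2 d Γ K k B r0 χ hFd hPU
  obtain ⟨CA, hCA, HA⟩ := hASAD d Γ K k B r0 χ hFd hPU
  obtain ⟨CM, hCM, HM⟩ := hAFMD d Γ K k B r0 χ hFd hPU
  obtain ⟨CR, hCR, HR⟩ := hAFRD d Γ K k B r0 hFd
  refine ⟨CT + CF + CW + CA + 4 * CM, by linarith, ?_⟩
  intro ch A hch hA
  have hAT : Adm CT A := EAM0 hA hCT (by linarith)
  have hAF : Adm CF A := EAM0 hA hCF (by linarith)
  have hAW : Adm CW A := EAM0 hA hCW (by linarith)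
  have hAA : Adm CA A := EAM0 hA hCA (by linarith)
  have hAM : Adm (4 * CM) A := EAM0 hA (by linarith) (by linarith)
  obtain ⟨z0, z01, hz1, z12, hz2, -, a2, -⟩ := EAM1 hAA hCA
  obtain ⟨-, -, -, -, -, -, m2, -⟩ := EAM1 hAM (by linarith)
  have hηA : CA * A.z1 ≤ 1 := by nlinarith
  have hη4 : CM * A.z1 ≤ 1 / 4 := by nlinarith
  have hη1' : CM * A.z1 ≤ 1 := by linarith
  have hη0 : 0 < CM * A.z1 := by positivity
  obtain ⟨R1, hR1, HT1⟩ := HT ch A hch hAT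
  obtain ⟨N2, R2, hR2, HF1⟩ := HF ch A hch hAF
  obtain ⟨R3, hR3, HW1⟩ := HW ch A hch hAW
  obtain ⟨R4, hR4, HA1⟩ := HA ch A.z A.z1 hch z0 z01 hηA
  obtain ⟨R5, hR5, HM1⟩ := HM ch 0 A.z A.z1 0 hch z0 z01 hη1'
  obtain ⟨R6, hR6, HN⟩ := EES_num2
  refine ⟨N2, max (max (max R1 R2) (max R3 R4)) (max (max R5 R6) CR),
    hR1.trans ((le_max_left _ _).trans ((le_max_left _ _).trans (le_max_left _ _))), ?_⟩
  intro R s L F G Φ f h u hR hFD hOK hAp hinv hsm hh1 hL hder hs0 hs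
  have k1 : R1 ≤ R := (le_max_left _ _).trans ((le_max_left _ _).trans ((le_max_left _ _).trans hR))
  have k2 : R2 ≤ R := (le_max_right _ _).trans ((le_max_left _ _).trans ((le_max_left _ _).trans hR))
  have k3 : R3 ≤ R := (le_max_left _ _).trans ((le_max_right _ _).trans ((le_max_left _ _).trans hR))
  have k4 : R4 ≤ R := (le_max_right _ _).trans ((le_max_right _ _).trans ((le_max_left _ _).trans hR))
  have k5 : R5 ≤ R := (le_max_left _ _).trans ((le_max_left _ _).trans ((le_max_right _ _).trans hR))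
  have k6 : R6 ≤ R := (le_max_right _ _).trans ((le_max_left _ _).trans ((le_max_right _ _).trans hR))
  have k7 : CR ≤ R := (le_max_right _ _).trans ((le_max_right _ _).trans hR)
  have hR1' : 1 ≤ R := hR6.trans k6
  have hR0 : 0 < R := by linarith
  obtain ⟨n1, n2, n3, n4, n5, n6⟩ := HN R k6
  have hDm : Dm (⊤ : Subgroup Γ) F {(1 : Γ)} := Or.inl ⟨rfl, hFD, rfl⟩
  have hFH : FH (⊤ : Subgroup Γ) F u := hAp.fh
  obtain ⟨w1, -, w3, w4, w5⟩ := HW1 R F G f u k3 hFD hOK.cls hAp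
  have hs' : |s| ≤ 1 := by
    rw [abs_of_nonneg hs0]
    exact hs
  have hfam := (HM1 R s G Φ k5 hOK hs').1
  obtain ⟨-, -, r⟩ := HR 0 (CM * A.z1) (R ^ (3 * (d : ℝ) / 4 + CM * A.z1)) R s G Φ (fP G Φ χ ch A.z A.z1 R s) k7 hOK hη0 hη4
    (Real.rpow_nonneg hR0.le _) hs' hfam
  obtain ⟨r4, r5, r6⟩ := r (⊤ : Subgroup Γ) F {(1 : Γ)} hDm
  have hhφ : FH (⊤ : Subgroup Γ) F (fun z => ((h z : ℝ) : ℂ) * u z) := by
    refine ⟨(Complex.continuous_ofReal.comp hsm.continuous).mul hFH.cont, fun γ hγ z => ?_, ?_⟩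
    · show ((h (γ • z) : ℝ) : ℂ) * u (γ • z) = _
      rw [hinv γ z, hFH.inv γ hγ z]
    · obtain ⟨b, hb⟩ := hFH.supp
      refine ⟨b, fun z hz h0 => hb z hz (fun h1 => h0 ?_)⟩
      show ((h z : ℝ) : ℂ) * u z = 0
      rw [h1, mul_zero]
  have hP : FP (⊤ : Subgroup Γ) {(1 : Γ)} (aF G r0 R (fP G Φ χ ch A.z A.z1 R s) u) := r5 u hFH
  have hPh : FP (⊤ : Subgroup Γ) {(1 : Γ)} (aF G r0 R (fP G Φ χ ch A.z A.z1 R s) (fun z => ((h z : ℝ) : ℂ) * u z)) := r5 _ hhφ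
  have hψ : FH (⊤ : Subgroup Γ) F (sF G r0 R (fP G Φ χ ch A.z A.z1 R s) (aF G r0 R (fP G Φ χ ch A.z A.z1 R s) u)) := r4 _ hP
  have dual1 := r6 u _ hFH hP
  have dual2 := r6 _ _ hhφ hP
  have eT := HT1 R s F G Φ f u k1 hFD hOK hAp hs0 hs
  have eF := HF1 R s L F G Φ u h k2 hFD hOK hFH hinv hsm hL hder hs0 hs
  obtain ⟨a1, a2⟩ := HA1 R s G Φ k4 hOK hs0 hs (⊤ : Subgroup Γ) F {(1 : Γ)} hDm
  have a1' := a1 _ hP
  have a2' := a2 u hFH
  have mθ : Measurable (fun y : YS Γ d => thP Φ f R s y.2) := EES_meas (EES_th hOK.flow hAp.sm.smooth.continuous R s).measurable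
  have mη : Measurable (fun y : YS Γ d => h (Φ s y.2).1) := by
    have h2 := hOK.flow.smooth.continuous
    have h3 : Continuous (fun p : P d => Φ s p) := h2.comp (continuous_const.prodMk continuous_id)
    exact EES_meas (g := fun p : P d => h (Φ s p).1) (hsm.continuous.comp h3.fst).measurable
  -- finite measures
  obtain ⟨hcount, -, -, -, hcpt, -⟩ := hAMVI d Γ K k B G hFd hOK.cls
  haveI : Countable Γ := hcount
  obtain ⟨-, -, -, -, -, hyp, hvol⟩ := hEYP d Γ G r0 2 R hOK.cls.met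
  have hfin : mY Γ d (DT d {(1 : Γ)} ∩ GW Γ G r0 2 R) < ⊤ := by
    have h1 := hyp (fun _ => 1)
    simp only [lintegral_const, Measure.restrict_apply_univ, one_mul] at h1
    rw [h1]
    exact hvol
  set W : Set (YS Γ d) := DT d {(1 : Γ)} ∩ GW Γ G r0 2 R with hWdef
  haveI : IsFiniteMeasure ((mY Γ d).restrict W) := ⟨by rw [Measure.restrict_apply_univ]; exact hfin⟩
  have fp : ∀ {v : YS Γ d → ℂ}, FP (⊤ : Subgroup Γ) {(1 : Γ)} v → Integrable (fun y => ‖v y‖ ^ 2) ((mY Γ d).restrict W) := by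
    intro v hv
    obtain ⟨b, hb⟩ := hv.bdd
    refine Integrable.mono' (integrable_const (b ^ 2)) (hv.meas.norm.pow_const 2).aestronglyMeasurable (Eventually.of_forall fun y => ?_)
    rw [norm_pow, norm_norm]
    exact pow_le_pow_left₀ (norm_nonneg _) (hb y) 2
  have hF : MeasurableSet F := hFD.meas
  haveI : IsFiniteMeasureOnCompacts (mv G) := ⟨fun {S} hS => hcpt S hS⟩
  have fF : ∀ {φ : V d → ℂ}, Continuous φ → Integrable (fun z => ‖φ z‖ ^ 2) ((mv G).restrict F) := by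
    intro φ hφ
    obtain ⟨b, hb⟩ := hFD.bdd
    have h1 : IntegrableOn (fun z => ‖φ z‖ ^ 2) (Metric.closedBall 0 b) (mv G) :=
      (hφ.norm.pow 2).continuousOn.integrableOn_compact (isCompact_closedBall _ _)
    exact h1.mono_set fun z hz => mem_closedBall_zero_iff.2 (hb z hz)
  -- short names
  set P : YS Γ d → ℂ := aF G r0 R (fP G Φ χ ch A.z A.z1 R s) u with hPdef
  set Ph : YS Γ d → ℂ := aF G r0 R (fP G Φ χ ch A.z A.z1 R s) (fun z => ((h z : ℝ) : ℂ) * u z) with hPhdef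
  set ψ : V d → ℂ := sF G r0 R (fP G Φ χ ch A.z A.z1 R s) P with hψdef
  set Q : YS Γ d → ℂ := QF G χ ch A.z R u with hQdef
  set b : YS Γ d → ℂ := fun p => Complex.exp (((thP Φ f R s p.2 : ℝ) : ℂ) * Complex.I) * Q p with hbdef
  set η : YS Γ d → ℝ := fun p => h (Φ s p.2).1 with hηdef
  set N : ℝ := nn G F u with hN
  have hN0 : 0 ≤ N := integral_nonneg (fun z => by positivity)
  have nb : ∀ p, ‖b p‖ = ‖Q p‖ := by
    intro p
    rw [hbdef]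
    show ‖Complex.exp (((thP Φ f R s p.2 : ℝ) : ℂ) * Complex.I) * Q p‖ = _
    rw [norm_mul, Complex.norm_exp_ofReal_mul_I, one_mul]
  have mb : Measurable b :=
    (Complex.measurable_exp.comp ((Complex.measurable_ofReal.comp mθ).mul_const _)).mul w1.meas
  have iP : Integrable (fun p => ‖P p‖ ^ 2) ((mY Γ d).restrict W) := fp hP
  have iPh : Integrable (fun p => ‖Ph p‖ ^ 2) ((mY Γ d).restrict W) := fp hPh
  have iQ : Integrable (fun p => ‖Q p‖ ^ 2) ((mY Γ d).restrict W) := fp w1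
  have ib : Integrable (fun p => ‖b p‖ ^ 2) ((mY Γ d).restrict W) := by
    simp only [nb]
    exact iQ
  have hη1 : ∀ p, 0 ≤ η p ∧ η p ≤ 1 := fun p => hh1 _
  have mηP : Measurable (fun p => ((η p : ℝ) : ℂ) * P p) := (Complex.measurable_ofReal.comp mη).mul hP.meas
  have iηP : Integrable (fun p => ‖((η p : ℝ) : ℂ) * P p‖ ^ 2) ((mY Γ d).restrict W) := by
    refine Integrable.mono' iP (mηP.norm.pow_const 2).aestronglyMeasurable (Eventually.of_forall fun p => ?_)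
    rw [Real.norm_of_nonneg (by positivity), norm_mul, Complex.norm_real, Real.norm_of_nonneg (hη1 p).1, mul_pow]
    exact mul_le_of_le_one_left (by positivity) (pow_le_one₀ (hη1 p).1 (hη1 p).2)
  -- the numbers
  have rP : nP G r0 {(1 : Γ)} 2 R P = ∫ p, ‖P p‖ ^ 2 ∂((mY Γ d).restrict W) := rfl
  have rQ : nP G r0 {(1 : Γ)} 2 R Q = ∫ p, ‖Q p‖ ^ 2 ∂((mY Γ d).restrict W) := rfl
  set x : ℝ := Real.sqrt (nP G r0 {(1 : Γ)} 2 R P) with hx
  set y : ℝ := Real.sqrt (nP G r0 {(1 : Γ)} 2 R Q) with hy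
  set n : ℝ := Real.sqrt N with hn
  have hnP : 0 ≤ nP G r0 {(1 : Γ)} 2 R P := integral_nonneg (fun z => by positivity)
  have hnQ : 0 ≤ nP G r0 {(1 : Γ)} 2 R Q := integral_nonneg (fun z => by positivity)
  have hn0 : 0 ≤ n := Real.sqrt_nonneg _
  have hx0 : 0 ≤ x := Real.sqrt_nonneg _
  have hy0 : 0 ≤ y := Real.sqrt_nonneg _
  have hn2 : n ^ 2 = N := Real.sq_sqrt hN0
  have hx2 : x ^ 2 = nP G r0 {(1 : Γ)} 2 R P := Real.sq_sqrt hnP
  have hy2 : y ^ 2 = nP G r0 {(1 : Γ)} 2 R Q := Real.sq_sqrt hnQ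
  have hδ0 : 0 ≤ R ^ (-(1 / 5) : ℝ) := Real.rpow_nonneg hR0.le _
  have hδ1 : 0 ≤ R ^ (-(9 / 40) : ℝ) := Real.rpow_nonneg hR0.le _
  have he0 : 0 ≤ R ^ (-(1 / 120) : ℝ) := Real.rpow_nonneg hR0.le _
  have hxn : x ≤ (1 + R ^ (-(1 / 5) : ℝ)) * n := by
    have h1 := Real.sqrt_le_sqrt a2'
    rw [Real.sqrt_mul (sq_nonneg _), Real.sqrt_sq (by positivity)] at h1
    exact h1.trans (mul_le_mul_of_nonneg_right (by linarith) hn0)
  have hx2n : x ≤ 2 * n := hxn.trans (mul_le_mul_of_nonneg_right (by linarith) hn0)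
  have hyn : y ≤ 2 * n := by
    rw [hy]
    refine Real.sqrt_le_iff.2 ⟨by positivity, ?_⟩
    rw [mul_pow, hn2]
    refine w3.trans (mul_le_mul_of_nonneg_right ?_ hN0)
    norm_num
    linarith
  have sT : Real.sqrt (∫ p, ‖P p - b p‖ ^ 2 ∂((mY Γ d).restrict W)) ≤ R ^ (-(1 / 120) : ℝ) * n := by
    have e1 := Real.sqrt_le_sqrt eT
    have e2 := EES_sqrt (R := R) (a := -(1 / 120)) (L := 1) (N := N) hR0 zero_le_one
    rw [one_pow, one_mul, one_mul] at e2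
    have e3 : (2 : ℝ) * (-(1 / 120)) = -(1 / 60) := by norm_num
    rw [e3] at e2
    rw [e2] at e1
    exact e1
  have sF' : Real.sqrt (∫ p, ‖Ph p - ((η p : ℝ) : ℂ) * P p‖ ^ 2 ∂((mY Γ d).restrict W)) ≤ L * R ^ (-(9 / 20) : ℝ) * n := by
    have e1 := Real.sqrt_le_sqrt eF
    have e2 := EES_sqrt (R := R) (a := -(9 / 20)) (L := L) (N := N) hR0 hL
    have e3 : (2 : ℝ) * (-(9 / 20)) = -(9 / 10) := by norm_num
    rw [e3] at e2
    rw [e2] at e1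
    exact e1
  have hyx : y ≤ x + R ^ (-(1 / 120) : ℝ) * n := by
    have e1 := EES_mink ((mY Γ d).restrict W) hP.meas.aestronglyMeasurable mb.aestronglyMeasurable iP ib
    simp only [nb] at e1
    rw [← rP, ← rQ, ← hx, ← hy] at e1
    linarith
  -- first step
  have s1 : |(∫ p, η p * ‖Q p‖ ^ 2 ∂((mY Γ d).restrict W)) - ∫ p, η p * ‖P p‖ ^ 2 ∂((mY Γ d).restrict W)| ≤ 4 * R ^ (-(1 / 120) : ℝ) * N := by
    have e1 := EES_eta ((mY Γ d).restrict W) hP.meas.aestronglyMeasurable mb.aestronglyMeasurable iP ib mη.aestronglyMeasurable hη1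
    simp only [nb] at e1
    rw [← rP, ← rQ, ← hx, ← hy] at e1
    rw [abs_sub_comm]
    calc _ ≤ _ := e1
      _ ≤ (R ^ (-(1 / 120) : ℝ) * n) * (4 * n) := mul_le_mul sT (by linarith) (by positivity) (by positivity)
      _ = 4 * R ^ (-(1 / 120) : ℝ) * N := by rw [← hn2]; ring
  -- second step
  have s2 : ‖(∫ p, Ph p * conj (P p) ∂((mY Γ d).restrict W)) - ((∫ p, η p * ‖P p‖ ^ 2 ∂((mY Γ d).restrict W) : ℝ) : ℂ)‖ ≤
      2 * L * R ^ (-(9 / 20) : ℝ) * N := by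
    have e1 : ((∫ p, η p * ‖P p‖ ^ 2 ∂((mY Γ d).restrict W) : ℝ) : ℂ) = ∫ p, (((η p : ℝ) : ℂ) * P p) * conj (P p) ∂((mY Γ d).restrict W) := by
      rw [← integral_complex_ofReal]
      congr 1
      funext p
      rw [mul_assoc, Complex.mul_conj, Complex.normSq_eq_norm_sq]
      push_cast
      ring
    have j1 := EES_mulC ((mY Γ d).restrict W) hPh.meas.aestronglyMeasurable hP.meas.aestronglyMeasurable iPh iP
    have j2 := EES_mulC ((mY Γ d).restrict W) mηP.aestronglyMeasurable hP.meas.aestronglyMeasurable iηP iP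
    rw [e1, ← integral_sub j1 j2]
    have e2 : (fun p => Ph p * conj (P p) - (((η p : ℝ) : ℂ) * P p) * conj (P p)) =
        fun p => (Ph p - ((η p : ℝ) : ℂ) * P p) * conj (P p) := by
      funext p
      ring
    rw [e2]
    have e3 := EES_cs ((mY Γ d).restrict W) (f := fun p => Ph p - ((η p : ℝ) : ℂ) * P p)
      (hPh.meas.sub mηP).aestronglyMeasurable hP.meas.aestronglyMeasurable
      (EES_sub ((mY Γ d).restrict W) hPh.meas.aestronglyMeasurable mηP.aestronglyMeasurable iPh iηP) iP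
    refine e3.trans ?_
    rw [← rP, ← hx]
    calc _ ≤ (L * R ^ (-(9 / 20) : ℝ) * n) * (2 * n) := mul_le_mul sF' hx2n hx0 (by positivity)
      _ = 2 * L * R ^ (-(9 / 20) : ℝ) * N := by rw [← hn2]; ring
  -- third step
  have hPP : ∫ z, u z * conj (ψ z) ∂((mv G).restrict F) = ((nP G r0 {(1 : Γ)} 2 R P : ℝ) : ℂ) := by
    rw [hψdef, ← dual1, nP, ← integral_complex_ofReal]
    congr 1
    funext z
    rw [Complex.mul_conj, Complex.normSq_eq_norm_sq]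
  have mu := hFH.cont.aestronglyMeasurable (μ := (mv G).restrict F)
  have mψ := hψ.cont.aestronglyMeasurable (μ := (mv G).restrict F)
  have mh := hhφ.cont.aestronglyMeasurable (μ := (mv G).restrict F)
  have i2 := fF hFH.cont
  have i1 := fF hψ.cont
  have i0 := fF hhφ.cont
  have hZ := EES_dist ((mv G).restrict F) mu mψ i2 i1 hPP
  have s4 : ∫ z, ‖u z - ψ z‖ ^ 2 ∂((mv G).restrict F) ≤ 16 * R ^ (-(1 / 120) : ℝ) * n ^ 2 := by
    refine EES_num1 (n := n) (x := x) (y := y) (δ := R ^ (-(1 / 5) : ℝ)) (e := R ^ (-(1 / 120) : ℝ)) (nψ := nn G F ψ) hn0 hx0 hy0 hδ0 n2 n1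
      ?_ hyx hxn ?_ ?_
    · rw [hn2, hy2]
      exact w4.trans w5
    · rw [hZ, hx2, hn2]
      rfl
    · rw [hx2]
      refine a1'.trans (mul_le_mul_of_nonneg_right ?_ hnP)
      exact pow_le_pow_left₀ (by linarith) (by linarith) 2
  have s5 : Real.sqrt (∫ z, ‖u z - ψ z‖ ^ 2 ∂((mv G).restrict F)) ≤ 4 * R ^ (-(1 / 240) : ℝ) * n := by
    have e1 := Real.sqrt_le_sqrt s4
    have e2 := EES_sqrt (R := R) (a := -(1 / 240)) (L := 4) (N := n ^ 2) hR0 (by norm_num)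
    have e3 : (2 : ℝ) * (-(1 / 240)) = -(1 / 120) := by norm_num
    rw [e3, Real.sqrt_sq hn0] at e2
    norm_num at e2
    rw [e2] at e1
    exact e1
  have s6 : ‖(∫ z, (((h z : ℝ) : ℂ) * u z) * conj (ψ z) ∂((mv G).restrict F)) - ((∫ z, h z * ‖u z‖ ^ 2 ∂((mv G).restrict F) : ℝ) : ℂ)‖ ≤
      4 * R ^ (-(1 / 240) : ℝ) * N := by
    have e1 : ((∫ z, h z * ‖u z‖ ^ 2 ∂((mv G).restrict F) : ℝ) : ℂ) = ∫ z, (((h z : ℝ) : ℂ) * u z) * conj (u z) ∂((mv G).restrict F) := by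
      rw [← integral_complex_ofReal]
      congr 1
      funext p
      rw [mul_assoc, Complex.mul_conj, Complex.normSq_eq_norm_sq]
      push_cast
      ring
    have j1 := EES_mulC ((mv G).restrict F) mh mψ i0 i1
    have j2 := EES_mulC ((mv G).restrict F) mh mu i0 i2
    rw [e1, norm_sub_rev, ← integral_sub j2 j1]
    have e2 : (fun z => ((h z : ℝ) : ℂ) * u z * conj (u z) - ((h z : ℝ) : ℂ) * u z * conj (ψ z)) =
        fun z => (((h z : ℝ) : ℂ) * u z) * conj (u z - ψ z) := by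
      funext z
      rw [map_sub]
      ring
    rw [e2]
    have e3 := EES_cs ((mv G).restrict F) (f := fun z => ((h z : ℝ) : ℂ) * u z) (g := fun z => u z - ψ z)
      mh (mu.sub mψ) i0 (EES_sub ((mv G).restrict F) mu mψ i2 i1)
    refine e3.trans ?_
    have e4 : Real.sqrt (∫ z, ‖((h z : ℝ) : ℂ) * u z‖ ^ 2 ∂((mv G).restrict F)) ≤ n := by
      refine Real.sqrt_le_sqrt (integral_mono i0 i2 fun z => ?_)
      show ‖((h z : ℝ) : ℂ) * u z‖ ^ 2 ≤ ‖u z‖ ^ 2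
      rw [norm_mul, Complex.norm_real, Real.norm_of_nonneg (hh1 z).1, mul_pow]
      exact mul_le_of_le_one_left (by positivity) (pow_le_one₀ (hh1 z).1 (hh1 z).2)
    calc _ ≤ n * (4 * R ^ (-(1 / 240) : ℝ) * n) := mul_le_mul e4 s5 (Real.sqrt_nonneg _) hn0
      _ = 4 * R ^ (-(1 / 240) : ℝ) * N := by rw [← hn2]; ring
  -- conclusion
  rw [← dual2] at s6
  have s7 : |(∫ p, η p * ‖P p‖ ^ 2 ∂((mY Γ d).restrict W)) - ∫ z, h z * ‖u z‖ ^ 2 ∂((mv G).restrict F)| ≤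
      2 * L * R ^ (-(9 / 20) : ℝ) * N + 4 * R ^ (-(1 / 240) : ℝ) * N := by
    have e1 : ((((∫ p, η p * ‖P p‖ ^ 2 ∂((mY Γ d).restrict W)) - ∫ z, h z * ‖u z‖ ^ 2 ∂((mv G).restrict F) : ℝ) : ℝ) : ℂ) =
        ((∫ p, Ph p * conj (P p) ∂((mY Γ d).restrict W)) - ((∫ z, h z * ‖u z‖ ^ 2 ∂((mv G).restrict F) : ℝ) : ℂ)) -
        ((∫ p, Ph p * conj (P p) ∂((mY Γ d).restrict W)) - ((∫ p, η p * ‖P p‖ ^ 2 ∂((mY Γ d).restrict W) : ℝ) : ℂ)) := by
      rw [Complex.ofReal_sub]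
      ring
    rw [← Real.norm_eq_abs, ← Complex.norm_real, e1]
    refine (norm_sub_le _ _).trans ?_
    linarith
  have s8 := abs_sub_le (∫ p, η p * ‖Q p‖ ^ 2 ∂((mY Γ d).restrict W)) (∫ p, η p * ‖P p‖ ^ 2 ∂((mY Γ d).restrict W)) (∫ z, h z * ‖u z‖ ^ 2 ∂((mv G).restrict F))
  have hr : 0 ≤ R ^ (-(1 / 240) : ℝ) := Real.rpow_nonneg hR0.le _
  have s9 : 4 * R ^ (-(1 / 120) : ℝ) + 2 * L * R ^ (-(9 / 20) : ℝ) + 4 * R ^ (-(1 / 240) : ℝ) ≤ (1 + L) * R ^ (-(1 / 250) : ℝ) := by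
    have e1 : L * R ^ (-(9 / 20) : ℝ) ≤ L * R ^ (-(1 / 240) : ℝ) := mul_le_mul_of_nonneg_left n5 hL
    have e2 : L * (8 * R ^ (-(1 / 240) : ℝ)) ≤ L * R ^ (-(1 / 250) : ℝ) := mul_le_mul_of_nonneg_left n3 hL
    have e3 : 0 ≤ L * R ^ (-(1 / 240) : ℝ) := mul_nonneg hL hr
    rw [add_mul, one_mul]
    linarith
  have s10 := mul_le_mul_of_nonneg_right s9 hN0
  refine (s8.trans (add_le_add s1 s7)).trans ?_
  refine le_trans (le_of_eq ?_) s10
  ring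

end

end Pool.Agent.VD
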