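import Pool.Agent.helper80.VD.SpecF

/-! Row vd:GLF (the lift of a diffeomorphism to phase space) of project VD. -/

set_option autoImplicit false

open scoped ContDiff Topology InnerProductSpace
open MeasureTheory Filter Set

namespace Pool.Agent.VD

noncomputable section

/-- the adjoint as a continuous linear map (real scalars) -/
def GLF_Adj (d : ℕ) : (V d →L[ℝ] V d) →L[ℝ] (V d →L[ℝ] V d) :=
  LinearMap.mkContinuous
    { toFun := fun A => ContinuousLinearMap.adjoint A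
      map_add' := fun A B => by simp
      map_smul' := fun a A => by simp } 1 (fun A => by simp)

theorem GLF_Adj_apply {d : ℕ} (A : V d →L[ℝ] V d) :
    GLF_Adj d A = ContinuousLinearMap.adjoint A := rfl

theorem GLF_inner {d : ℕ} (A : V d →L[ℝ] V d) (x y : V d) :
    ⟪GLF_Adj d A x, y⟫_ℝ = ⟪x, A y⟫_ℝ := by
  rw [GLF_Adj_apply, ContinuousLinearMap.adjoint_inner_left]

theorem GLF_comp {d : ℕ} (A B : V d →L[ℝ] V d) :
    GLF_Adj d (A.comp B) = (GLF_Adj d B).comp (GLF_Adj d A) := by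
  simp only [GLF_Adj_apply]
  exact ContinuousLinearMap.adjoint_comp A B

theorem GLF_id {d : ℕ} : GLF_Adj d (ContinuousLinearMap.id ℝ (V d)) = ContinuousLinearMap.id ℝ (V d) := by
  ext1 x
  refine ext_inner_right ℝ fun y => ?_
  rw [GLF_inner]
  rfl

section

variable {d : ℕ} {Γ : Type} [Group Γ] [MulAction Γ (V d)]

/-- the derivative of the action -/
def GLF_D (γ : Γ) (x : V d) : V d →L[ℝ] V d := fderiv ℝ (fun y : V d => γ • y) x

theorem GLF_hasFDerivAt (hs : ∀ γ : Γ, ContDiff ℝ ∞ fun x : V d => γ • x) (γ : Γ) (x : V d) :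
    HasFDerivAt (fun y : V d => γ • y) (GLF_D γ x) x :=
  (((hs γ).differentiable (by simp)) x).hasFDerivAt

theorem GLF_mul (hs : ∀ γ : Γ, ContDiff ℝ ∞ fun x : V d => γ • x) (γ δ : Γ) (x : V d) :
    GLF_D (γ * δ) x = (GLF_D γ (δ • x)).comp (GLF_D δ x) := by
  have h := (GLF_hasFDerivAt hs γ (δ • x)).comp x (GLF_hasFDerivAt hs δ x)
  have h2 : ((fun y : V d => γ • y) ∘ fun y : V d => δ • y) = fun y : V d => (γ * δ) • y := by
    funext y
    simp [mul_smul]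
  rw [h2] at h
  exact (GLF_hasFDerivAt hs (γ * δ) x).unique h

theorem GLF_one (hs : ∀ γ : Γ, ContDiff ℝ ∞ fun x : V d => γ • x) (x : V d) :
    GLF_D (1 : Γ) x = ContinuousLinearMap.id ℝ (V d) := by
  have h : HasFDerivAt (fun y : V d => (1 : Γ) • y) (ContinuousLinearMap.id ℝ (V d)) x := by
    have h2 : (fun y : V d => (1 : Γ) • y) = id := by
      funext y
      simp
    rw [h2]
    exact hasFDerivAt_id x
  exact (GLF_hasFDerivAt hs 1 x).unique h

theorem GLF_inv1 (hs : ∀ γ : Γ, ContDiff ℝ ∞ fun x : V d => γ • x) (γ : Γ) (x : V d) :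
    (GLF_D γ⁻¹ (γ • x)).comp (GLF_D γ x) = ContinuousLinearMap.id ℝ (V d) := by
  rw [← GLF_mul hs, inv_mul_cancel, GLF_one hs]

theorem GLF_inv2 (hs : ∀ γ : Γ, ContDiff ℝ ∞ fun x : V d => γ • x) (γ : Γ) (x : V d) :
    (GLF_D γ x).comp (GLF_D γ⁻¹ (γ • x)) = ContinuousLinearMap.id ℝ (V d) := by
  have h := GLF_inv1 hs γ⁻¹ (γ • x)
  rw [inv_inv, inv_smul_smul] at h
  exact h

theorem GLF_lft (hs : ∀ γ : Γ, ContDiff ℝ ∞ fun x : V d => γ • x) (γ : Γ) (p : P d) :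
    lft γ p = (γ • p.1, GLF_Adj d (GLF_D γ⁻¹ (γ • p.1)) p.2) := by
  have h : (ContinuousLinearMap.adjoint (fderiv ℝ (fun y : V d => γ • y) p.1)).inverse =
      GLF_Adj d (GLF_D γ⁻¹ (γ • p.1)) := by
    apply ContinuousLinearMap.inverse_eq
    · have h1 := GLF_comp (GLF_D γ⁻¹ (γ • p.1)) (GLF_D γ p.1)
      rw [GLF_inv1 hs, GLF_id] at h1
      exact h1.symm
    · have h1 := GLF_comp (GLF_D γ p.1) (GLF_D γ⁻¹ (γ • p.1))
      rw [GLF_inv2 hs, GLF_id] at h1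
      exact h1.symm
  unfold lft
  rw [h]

/-- `L x = D γ⁻¹ (γ x)` -/
def GLF_L (γ : Γ) (x : V d) : V d →L[ℝ] V d := GLF_D γ⁻¹ (γ • x)

theorem GLF_D_smooth (hs : ∀ γ : Γ, ContDiff ℝ ∞ fun x : V d => γ • x) (γ : Γ) :
    ContDiff ℝ ∞ (GLF_D (d := d) γ) := by
  have h := (contDiff_infty_iff_fderiv.mp (hs γ)).2
  exact h

theorem GLF_L_smooth (hs : ∀ γ : Γ, ContDiff ℝ ∞ fun x : V d => γ • x) (γ : Γ) :
    ContDiff ℝ ∞ (GLF_L (d := d) γ) :=
  (GLF_D_smooth hs γ⁻¹).comp (hs γ)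

theorem GLF_lft_eq (hs : ∀ γ : Γ, ContDiff ℝ ∞ fun x : V d => γ • x) (γ : Γ) :
    (lft γ : P d → P d) = fun p => (γ • p.1, GLF_Adj d (GLF_L γ p.1) p.2) := by
  funext p
  exact GLF_lft hs γ p

theorem GLF_lft_smooth (hs : ∀ γ : Γ, ContDiff ℝ ∞ fun x : V d => γ • x) (γ : Γ) :
    ContDiff ℝ ∞ (lft γ : P d → P d) := by
  rw [GLF_lft_eq hs γ]
  refine ContDiff.prodMk ((hs γ).comp contDiff_fst) ?_
  exact ((GLF_Adj d).contDiff.comp ((GLF_L_smooth hs γ).comp contDiff_fst)).clm_apply contDiff_snd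

theorem GLF_lft_fderiv (hs : ∀ γ : Γ, ContDiff ℝ ∞ fun x : V d => γ • x) (γ : Γ) (p v : P d) :
    fderiv ℝ (lft γ : P d → P d) p v =
      (GLF_D γ p.1 v.1, GLF_Adj d (GLF_L γ p.1) v.2 + GLF_Adj d (fderiv ℝ (GLF_L γ) p.1 v.1) p.2) := by
  have hL : HasFDerivAt (GLF_L (d := d) γ) (fderiv ℝ (GLF_L γ) p.1) p.1 :=
    (((GLF_L_smooth hs γ).differentiable (by simp)) p.1).hasFDerivAt
  have h1 : HasFDerivAt (fun q : P d => γ • q.1) ((GLF_D γ p.1).comp (ContinuousLinearMap.fst ℝ (V d) (V d))) p :=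
    (GLF_hasFDerivAt hs γ p.1).comp p hasFDerivAt_fst
  have h2 : HasFDerivAt (fun q : P d => GLF_Adj d (GLF_L γ q.1))
      ((GLF_Adj d).comp ((fderiv ℝ (GLF_L γ) p.1).comp (ContinuousLinearMap.fst ℝ (V d) (V d)))) p :=
    (GLF_Adj d).hasFDerivAt.comp p (hL.comp p hasFDerivAt_fst)
  have h30 : HasFDerivAt (fun q : P d => q.2) (ContinuousLinearMap.snd ℝ (V d) (V d)) p := hasFDerivAt_snd
  have h3 := h2.clm_apply h30
  have h5 : HasFDerivAt (lft γ : P d → P d) (((GLF_D γ p.1).comp (ContinuousLinearMap.fst ℝ (V d) (V d))).prod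
      ((GLF_Adj d (GLF_L γ p.1)).comp (ContinuousLinearMap.snd ℝ (V d) (V d)) +
        ((GLF_Adj d).comp ((fderiv ℝ (GLF_L γ) p.1).comp (ContinuousLinearMap.fst ℝ (V d) (V d)))).flip p.2)) p := by
    rw [GLF_lft_eq hs γ]
    exact h1.prodMk h3
  rw [h5.fderiv]
  rfl

/-- the derivative of `L` -/
theorem GLF_dL (hs : ∀ γ : Γ, ContDiff ℝ ∞ fun x : V d => γ • x) (γ : Γ) (x u w : V d) :
    fderiv ℝ (GLF_L γ) x u (GLF_D γ x w) = - GLF_L γ x (fderiv ℝ (GLF_D γ) x u w) := by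
  have hL : HasFDerivAt (GLF_L (d := d) γ) (fderiv ℝ (GLF_L γ) x) x :=
    (((GLF_L_smooth hs γ).differentiable (by simp)) x).hasFDerivAt
  have hD : HasFDerivAt (GLF_D (d := d) γ) (fderiv ℝ (GLF_D γ) x) x :=
    (((GLF_D_smooth hs γ).differentiable (by simp)) x).hasFDerivAt
  have h1 := hL.clm_apply (hD.clm_apply (hasFDerivAt_const w x))
  have h2 : (fun y : V d => GLF_L γ y (GLF_D γ y w)) = fun _ => w := by
    funext y
    have h3 := GLF_inv1 hs γ y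
    have h4 := congrArg (fun A : V d →L[ℝ] V d => A w) h3
    exact h4
  rw [h2] at h1
  have h5 := h1.unique (hasFDerivAt_const w x)
  have h6 := congrArg (fun A : V d →L[ℝ] V d => A u) h5
  simp at h6
  exact eq_neg_of_add_eq_zero_right h6

theorem GLF_symm (hs : ∀ γ : Γ, ContDiff ℝ ∞ fun x : V d => γ • x) (γ : Γ) (x u w : V d) :
    fderiv ℝ (GLF_D γ) x u w = fderiv ℝ (GLF_D γ) x w u := by
  have h : IsSymmSndFDerivAt ℝ (fun y : V d => γ • y) x :=
    ((hs γ).contDiffAt (x := x)).isSymmSndFDerivAt (by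
      rw [minSmoothness_of_isRCLikeNormedField]
      norm_cast)
  exact h u w

end

theorem GLF_proof : GLF_stmt := by
  intro d Γ _ _ hs
  refine ⟨?_, ?_, fun γ => GLF_lft_smooth hs γ, ?_, ?_, ?_, ?_, ?_⟩
  · intro p
    rw [GLF_lft hs, inv_one, GLF_one hs, GLF_id]
    simp
  · intro γ δ p
    rw [GLF_lft hs, GLF_lft hs, GLF_lft hs]
    refine Prod.ext (by simp [mul_smul]) ?_
    simp only
    rw [mul_inv_rev, GLF_mul hs, GLF_comp]
    rw [mul_smul, inv_smul_smul]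
    rfl
  · intro γ x u
    refine ⟨?_, ?_⟩
    · exact congrArg (fun A : V d →L[ℝ] V d => A u) (GLF_inv1 hs γ x)
    · exact congrArg (fun A : V d →L[ℝ] V d => A u) (GLF_inv2 hs γ x)
  · intro γ p u
    rw [GLF_lft hs]
    simp only
    rw [GLF_inner]
    have h := congrArg (fun A : V d →L[ℝ] V d => A u) (GLF_inv1 hs γ p.1)
    have h2 : GLF_D γ⁻¹ (γ • p.1) (fderiv ℝ (fun y : V d => γ • y) p.1 u) = u := h
    rw [h2]
  · intro γ x ξ η a b
    rw [GLF_lft hs, GLF_lft hs, GLF_lft hs]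
    simp
  · intro γ p v w
    rw [GLF_lft_fderiv hs, GLF_lft_fderiv hs]
    unfold omg
    simp only
    rw [inner_add_left, inner_add_left, GLF_inner, GLF_inner, GLF_inner, GLF_inner, GLF_dL hs, GLF_dL hs]
    have h1 : ∀ u : V d, GLF_L γ p.1 (GLF_D γ p.1 u) = u := fun u =>
      congrArg (fun A : V d →L[ℝ] V d => A u) (GLF_inv1 hs γ p.1)
    rw [h1, h1, GLF_symm hs γ p.1 v.1 w.1]
    ring
  · intro γ p v
    rw [GLF_lft_fderiv hs]
    rfl

end

end Pool.Agent.VD
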