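import Pool.Agent.helper11.VD.SpecC

/-! Row vd:CVX (a convex compact set) of project VD. A closed ball which contains the compact set is used. -/

set_option autoImplicit false

open scoped ContDiff Topology InnerProductSpace ENNReal ComplexConjugate
open MeasureTheory Filter Set

namespace Pool.Agent.VD

noncomputable section

theorem CVX_proof : CVX_stmt := by
  intro d Γ _ _ G hD
  obtain ⟨K, hK, hc⟩ := hD.cocompact
  obtain ⟨r, hr⟩ := hK.isBounded.subset_closedBall (0 : V d)
  refine ⟨Metric.closedBall (0 : V d) r, isCompact_closedBall _ _, convex_closedBall _ _, ?_, hD.smooth, hD.free, hD.proper⟩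
  intro x
  obtain ⟨γ, h⟩ := hc x
  exact ⟨γ, hr h⟩

end

end Pool.Agent.VD
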